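import Mathlib

/-!
# Short certificates of non-duality of hypergraphs

`H`, `L` are cross-intersecting families of subsets of `Fin n`. A witness of non-duality is a set `Z`
which meets all members of `H` and contains no member of `L`. If there is one, then there is one which is
decoded (by the explicit procedure `dec`) from `O(J)` members of `H` and of `L` and `O(log N / J)` pairs
(vertex, member), for every `J`; with `J = sqrt (log N)` these are `O(sqrt (log N))` members in all.
-/

set_option autoImplicit false

namespace Pool.Agent.Helper64.SQ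

variable {n : ℕ}

/-- The number of the members of `F` disjoint from `P`. -/
def restc (F : List (Finset (Fin n))) (P : Finset (Fin n)) : ℕ :=
  F.countP (fun B => decide (Disjoint B P))

/-- The number of the members of `F` disjoint from `P` which contain `v`. -/
def cntc (F : List (Finset (Fin n))) (P : Finset (Fin n)) (v : Fin n) : ℕ :=
  F.countP (fun B => decide (Disjoint B P ∧ v ∈ B))

/-- At least the fraction `1 / K` of the members of `F` disjoint from `P` contains `v`. -/
def Freq (K : ℕ) (F : List (Finset (Fin n))) (P : Finset (Fin n)) (v : Fin n) : Prop :=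
  restc F P ≤ K * cntc F P v

instance (K : ℕ) (F : List (Finset (Fin n))) (P : Finset (Fin n)) (v : Fin n) :
    Decidable (Freq K F P v) := inferInstanceAs (Decidable (_ ≤ _))

/-- `v` is an exceptional vertex. -/
def Exc (X : List (Fin n × Finset (Fin n))) (v : Fin n) : Prop := ∃ p ∈ X, p.1 = v

instance (X : List (Fin n × Finset (Fin n))) (v : Fin n) : Decidable (Exc X v) :=
  inferInstanceAs (Decidable (∃ p ∈ X, p.1 = v))

/-- The other elements of the edges recorded for `v`. -/
def excU (X : List (Fin n × Finset (Fin n))) (v : Fin n) : Finset (Fin n) :=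
  Finset.univ.filter (fun j => j ≠ v ∧ ∃ p ∈ X, p.1 = v ∧ j ∈ p.2)

/-- One step of the decoding: the vertex `v` is decided. -/
def step (K : ℕ) (F : List (Finset (Fin n))) (C : Finset (Fin n))
    (X : List (Fin n × Finset (Fin n))) (s : Finset (Fin n) × Finset (Fin n)) (v : Fin n) :
    Finset (Fin n) × Finset (Fin n) :=
  if v ∈ s.1 ∪ s.2 then s
  else if Freq K F s.1 v then (if v ∈ C then (insert v s.1, s.2) else (s.1, insert v s.2))
  else if Exc X v then (s.1 ∪ excU X v, insert v s.2) else (insert v s.1, s.2)

/-- The vertices smaller than `i` are decided one after the other. -/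
def sim (K : ℕ) (F : List (Finset (Fin n))) (C : Finset (Fin n))
    (X : List (Fin n × Finset (Fin n))) (s : Finset (Fin n) × Finset (Fin n)) :
    ℕ → Finset (Fin n) × Finset (Fin n)
  | 0 => s
  | i + 1 => if h : i < n then step K F C X (sim K F C X s i) ⟨i, h⟩ else sim K F C X s i

/-- The first cover. -/
def cov1 (As : List (Finset (Fin n))) (i : ℕ) (b : Bool) : Finset (Fin n) :=
  Finset.univ.filter (fun j => if (j : ℕ) + 1 = i then b = true else ∃ A ∈ As, j ∈ A)

/-- The second cover. -/
def cov2 (Bs : List (Finset (Fin n))) : Finset (Fin n) :=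
  Finset.univ.filter (fun j => ∃ B ∈ Bs, j ∈ B)

/-- The decoding of a witness. -/
def dec (K : ℕ) (H L : List (Finset (Fin n))) (As Bs : List (Finset (Fin n)))
    (X Y : List (Fin n × Finset (Fin n))) (i : ℕ) (b : Bool) : Finset (Fin n) :=
  (sim K H (cov2 Bs) Y (sim K L (cov1 As i b) X (∅, ∅) i).swap n).1

/-- `P` meets all members of `F` and contains no member of `G`. -/
def Wit (F G : List (Finset (Fin n))) (P : Finset (Fin n)) : Prop :=
  (∀ B ∈ F, (B ∩ P).Nonempty) ∧ ∀ A ∈ G, ¬ A ⊆ P

/-- Some witness extends the partial assignment `s`. -/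
def Ext (F G : List (Finset (Fin n))) (s : Finset (Fin n) × Finset (Fin n)) : Prop :=
  ∃ P, Wit F G P ∧ s.1 ⊆ P ∧ Disjoint s.2 P

/-! ### Basic properties -/

theorem restc_mono (F : List (Finset (Fin n))) {P P' : Finset (Fin n)} (h : P ⊆ P') :
    restc F P' ≤ restc F P := by
  apply List.countP_mono_left
  intro B _ hB
  exact decide_eq_true ((of_decide_eq_true hB).mono_right h)

theorem restc_le (F : List (Finset (Fin n))) (P : Finset (Fin n)) : restc F P ≤ F.length :=
  List.countP_le_length

/-- A forced vertex decreases the rest. -/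
theorem restc_insert (F : List (Finset (Fin n))) (P : Finset (Fin n)) (v : Fin n) :
    restc F (insert v P) + cntc F P v ≤ restc F P := by
  unfold restc cntc
  induction F with
  | nil => simp
  | cons B F ih =>
    rw [List.countP_cons, List.countP_cons, List.countP_cons]
    have h : (if decide (Disjoint B (insert v P)) = true then 1 else 0) +
        (if decide (Disjoint B P ∧ v ∈ B) = true then 1 else 0) ≤
        (if decide (Disjoint B P) = true then 1 else 0) := by
      simp only [decide_eq_true_eq, Finset.disjoint_insert_right]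
      by_cases h1 : Disjoint B P <;> by_cases h2 : v ∈ B <;> simp [h1, h2]
    omega

/-- An exception decreases the rest. -/
theorem restc_exc (F : List (Finset (Fin n))) (P A : Finset (Fin n)) (v : Fin n)
    (hA : ∀ B ∈ F, (A ∩ B).Nonempty) : restc F (P ∪ A.erase v) ≤ cntc F P v := by
  apply List.countP_mono_left
  intro B hB h
  have h1 := of_decide_eq_true h
  rw [Finset.disjoint_union_right] at h1
  apply decide_eq_true
  refine ⟨h1.1, ?_⟩
  obtain ⟨a, ha⟩ := hA B hB
  rw [Finset.mem_inter] at ha
  by_cases hav : a = v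
  · rw [← hav]
    exact ha.2
  · exact absurd (Finset.mem_erase.2 ⟨hav, ha.1⟩) (Finset.disjoint_left.1 h1.2 ha.2)

theorem step_le (K : ℕ) (F : List (Finset (Fin n))) (C : Finset (Fin n))
    (X : List (Fin n × Finset (Fin n))) (s : Finset (Fin n) × Finset (Fin n)) (v : Fin n) :
    s ≤ step K F C X s v := by
  unfold step
  split_ifs
  · exact le_rfl
  · exact ⟨Finset.subset_insert _ _, le_rfl⟩
  · exact ⟨le_rfl, Finset.subset_insert _ _⟩
  · exact ⟨Finset.subset_union_left, Finset.subset_insert _ _⟩
  · exact ⟨Finset.subset_insert _ _, le_rfl⟩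

theorem mem_step (K : ℕ) (F : List (Finset (Fin n))) (C : Finset (Fin n))
    (X : List (Fin n × Finset (Fin n))) (s : Finset (Fin n) × Finset (Fin n)) (v : Fin n) :
    v ∈ (step K F C X s v).1 ∪ (step K F C X s v).2 := by
  unfold step
  split_ifs with h
  · exact h
  · exact Finset.mem_union_left _ (Finset.mem_insert_self _ _)
  · exact Finset.mem_union_right _ (Finset.mem_insert_self _ _)
  · exact Finset.mem_union_right _ (Finset.mem_insert_self _ _)
  · exact Finset.mem_union_left _ (Finset.mem_insert_self _ _)

theorem sim_succ (K : ℕ) (F : List (Finset (Fin n))) (C : Finset (Fin n))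
    (X : List (Fin n × Finset (Fin n))) (s : Finset (Fin n) × Finset (Fin n)) (v : Fin n) :
    sim K F C X s (v + 1) = step K F C X (sim K F C X s v) v := by
  rw [sim, dif_pos v.2]

theorem sim_mono (K : ℕ) (F : List (Finset (Fin n))) (C : Finset (Fin n))
    (X : List (Fin n × Finset (Fin n))) (s : Finset (Fin n) × Finset (Fin n)) :
    Monotone (sim K F C X s) := by
  apply monotone_nat_of_le_succ
  intro i
  rw [sim]
  split_ifs with h
  · exact step_le _ _ _ _ _ _
  · exact le_rfl

theorem sim_total (K : ℕ) (F : List (Finset (Fin n))) (C : Finset (Fin n))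
    (X : List (Fin n × Finset (Fin n))) (s : Finset (Fin n) × Finset (Fin n)) (v : Fin n) :
    v ∈ (sim K F C X s n).1 ∪ (sim K F C X s n).2 := by
  have h1 : v ∈ (sim K F C X s (v + 1)).1 ∪ (sim K F C X s (v + 1)).2 := by
    rw [sim_succ]
    exact mem_step _ _ _ _ _ _
  have h2 := sim_mono K F C X s (show (v : ℕ) + 1 ≤ n from v.2)
  rcases Finset.mem_union.1 h1 with h | h
  · exact Finset.mem_union_left _ (h2.1 h)
  · exact Finset.mem_union_right _ (h2.2 h)

/-- The simulation up to `i` depends only on the covers and exceptions below `i`. -/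
theorem sim_congr (K : ℕ) (F : List (Finset (Fin n))) (C C' : Finset (Fin n))
    (X X' : List (Fin n × Finset (Fin n))) (s : Finset (Fin n) × Finset (Fin n)) (i : ℕ)
    (hC : ∀ v : Fin n, (v : ℕ) < i → (v ∈ C ↔ v ∈ C'))
    (hX : ∀ v : Fin n, (v : ℕ) < i → ∀ A, (v, A) ∈ X ↔ (v, A) ∈ X') :
    sim K F C X s i = sim K F C' X' s i := by
  induction i with
  | zero => rfl
  | succ i ih =>
    have ih' := ih (fun v hv => hC v (by omega)) (fun v hv => hX v (by omega))
    rw [sim, sim, ih']
    split_ifs with h
    · set v : Fin n := ⟨i, h⟩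
      have h1 : (v ∈ C ↔ v ∈ C') := hC v (by simp [v])
      have h2 : Exc X v ↔ Exc X' v := by
        unfold Exc
        constructor
        · rintro ⟨p, hp, hpv⟩
          refine ⟨p, ?_, hpv⟩
          have := (hX v (by simp [v]) p.2).1
          rw [← hpv] at this
          exact this hp
        · rintro ⟨p, hp, hpv⟩
          refine ⟨p, ?_, hpv⟩
          have := (hX v (by simp [v]) p.2).2
          rw [← hpv] at this
          exact this hp
      have h3 : excU X v = excU X' v := by
        unfold excU
        ext j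
        simp only [Finset.mem_filter, Finset.mem_univ, true_and, and_congr_right_iff]
        intro _
        constructor
        · rintro ⟨p, hp, hpv, hj⟩
          refine ⟨p, ?_, hpv, hj⟩
          have := (hX v (by simp [v]) p.2).1
          rw [← hpv] at this
          exact this hp
        · rintro ⟨p, hp, hpv, hj⟩
          refine ⟨p, ?_, hpv, hj⟩
          have := (hX v (by simp [v]) p.2).2
          rw [← hpv] at this
          exact this hp
      unfold step
      simp only [h1, h2, h3]
    · rfl

/-- The forced set may be replaced by a cover. -/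
theorem sim_cover (K : ℕ) (F : List (Finset (Fin n))) (C T : Finset (Fin n))
    (X : List (Fin n × Finset (Fin n))) (s : Finset (Fin n) × Finset (Fin n)) (i : ℕ)
    (h1 : ∀ v : Fin n, (v : ℕ) < i → v ∈ T → v ∈ C)
    (h2 : ∀ v : Fin n, (v : ℕ) < i → v ∉ s.1 ∪ s.2 → v ∈ C → v ∉ (sim K F T X s i).2) :
    sim K F C X s i = sim K F T X s i := by
  induction i with
  | zero => rfl
  | succ i ih =>
    have hm := sim_mono K F T X s (Nat.le_succ i)
    have ih' := ih (fun v hv => h1 v (by omega))
      (fun v hv hs hC hn => h2 v (by omega) hs hC (hm.2 hn))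
    by_cases h : i < n
    · have e1 := sim_succ K F C X s ⟨i, h⟩
      have e2 := sim_succ K F T X s ⟨i, h⟩
      simp only at e1 e2
      rw [e1, e2, ih']
      set v : Fin n := ⟨i, h⟩ with hv
      unfold step
      split_ifs with g1 g2 g3 g4 g5 g6
      · rfl
      · rfl
      · exfalso
        refine h2 v (by simp [hv]) ?_ g3 ?_
        · intro hs
          apply g1
          have hm0 := sim_mono K F T X s (Nat.zero_le i)
          rcases Finset.mem_union.1 hs with hs | hs
          · exact Finset.mem_union_left _ (hm0.1 hs)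
          · exact Finset.mem_union_right _ (hm0.2 hs)
        · rw [e2]
          unfold step
          rw [if_neg g1, if_pos g2, if_neg g4]
          exact Finset.mem_insert_self _ _
      · exact absurd (h1 v (by simp [hv]) g5) g3
      · rfl
      · rfl
      · rfl
    · rw [sim, sim, dif_neg h, dif_neg h, ih']

/-! ### The canonical run -/

theorem Ext.mono {F G : List (Finset (Fin n))} {s t : Finset (Fin n) × Finset (Fin n)}
    (h : Ext F G t) (hst : s ≤ t) : Ext F G s := by
  obtain ⟨P, hP, h1, h2⟩ := h
  exact ⟨P, hP, subset_trans hst.1 h1, h2.mono_left hst.2⟩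

theorem step_assigned (K : ℕ) (F : List (Finset (Fin n))) (C : Finset (Fin n))
    (X : List (Fin n × Finset (Fin n))) (s : Finset (Fin n) × Finset (Fin n)) (v : Fin n)
    (h : v ∈ s.1 ∪ s.2) : step K F C X s v = s := by
  unfold step
  rw [if_pos h]

/-- The canonical run of the first `m` steps. -/
theorem run (K : ℕ) (F G : List (Finset (Fin n)))
    (hcross : ∀ A ∈ G, ∀ B ∈ F, (A ∩ B).Nonempty) (s : Finset (Fin n) × Finset (Fin n))
    (hs : Ext F G s) (m : ℕ) (hm : m ≤ n) :
    ∃ (T : Finset (Fin n)) (X : List (Fin n × Finset (Fin n))),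
      (∀ x ∈ T, (x : ℕ) < m) ∧ (∀ p ∈ X, ((p.1 : Fin n) : ℕ) < m ∧ p.2 ∈ G) ∧
      Ext F G (sim K F T X s m) ∧
      (∀ x ∈ T, x ∉ (sim K F T X s x).1 ∪ (sim K F T X s x).2 ∧
        x ∈ (sim K F T X s (x + 1)).1 ∧
        ¬ Ext F G ((sim K F T X s x).1, insert x (sim K F T X s x).2)) ∧
      (K ^ T.card * restc F (sim K F T X s m).1 ≤ (K - 1) ^ T.card * F.length ∧
        (T.card ≠ 0 → K ^ (T.card - 1) ≤ (K - 1) ^ (T.card - 1) * F.length)) ∧
      (K ^ X.length * restc F (sim K F T X s m).1 ≤ F.length ∧
        (X.length ≠ 0 → K ^ (X.length - 1) ≤ F.length)) := by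
  induction m with
  | zero =>
    refine ⟨∅, [], by simp, by simp, hs, by simp, ⟨?_, by simp⟩, ⟨?_, by simp⟩⟩
    · simpa using restc_le F _
    · simpa using restc_le F _
  | succ m ih =>
    obtain ⟨T, X, hT, hX, hE, hF, ⟨hT1, hT2⟩, hX1, hX2⟩ := ih (by omega)
    have hmn : m < n := by omega
    set v : Fin n := ⟨m, hmn⟩ with hv
    have hvT : v ∉ T := fun h => absurd (hT v h) (by simp [hv])
    have hvX : ¬ Exc X v := by
      rintro ⟨p, hp, hpv⟩
      have := (hX p hp).1
      rw [hpv] at this
      simp [hv] at this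
    have e0 : sim K F T X s (m + 1) = step K F T X (sim K F T X s m) v := sim_succ K F T X s v
    have hless : ∀ {m' : ℕ} {q : ℕ}, q < m → q < m + 1 := fun h => by omega
    -- the case of unchanged `T` and `X`
    have same : Ext F G (step K F T X (sim K F T X s m) v) →
        ∃ (T : Finset (Fin n)) (X : List (Fin n × Finset (Fin n))),
        (∀ x ∈ T, (x : ℕ) < m + 1) ∧ (∀ p ∈ X, ((p.1 : Fin n) : ℕ) < m + 1 ∧ p.2 ∈ G) ∧
        Ext F G (sim K F T X s (m + 1)) ∧
        (∀ x ∈ T, x ∉ (sim K F T X s x).1 ∪ (sim K F T X s x).2 ∧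
          x ∈ (sim K F T X s (x + 1)).1 ∧
          ¬ Ext F G ((sim K F T X s x).1, insert x (sim K F T X s x).2)) ∧
        (K ^ T.card * restc F (sim K F T X s (m + 1)).1 ≤ (K - 1) ^ T.card * F.length ∧
          (T.card ≠ 0 → K ^ (T.card - 1) ≤ (K - 1) ^ (T.card - 1) * F.length)) ∧
        (K ^ X.length * restc F (sim K F T X s (m + 1)).1 ≤ F.length ∧
          (X.length ≠ 0 → K ^ (X.length - 1) ≤ F.length)) := by
      intro h
      have hr : restc F (sim K F T X s (m + 1)).1 ≤ restc F (sim K F T X s m).1 :=
        restc_mono F (sim_mono K F T X s (Nat.le_succ m)).1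
      exact ⟨T, X, fun x hx => (hT x hx).trans (Nat.lt_succ_self m),
        fun p hp => ⟨(hX p hp).1.trans (Nat.lt_succ_self m), (hX p hp).2⟩, by rw [e0]; exact h, hF,
        ⟨(Nat.mul_le_mul_left _ hr).trans hT1, hT2⟩, (Nat.mul_le_mul_left _ hr).trans hX1, hX2⟩
    obtain ⟨Q, hQ, hQ1, hQ2⟩ := hE
    by_cases g1 : v ∈ (sim K F T X s m).1 ∪ (sim K F T X s m).2
    · apply same
      rw [step_assigned K F T X _ v g1]
      exact ⟨Q, hQ, hQ1, hQ2⟩
    by_cases g2 : Freq K F (sim K F T X s m).1 v
    · by_cases g3 : Ext F G ((sim K F T X s m).1, insert v (sim K F T X s m).2)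
      · apply same
        unfold step
        rw [if_neg g1, if_pos g2, if_neg hvT]
        exact g3
      · -- forced
        have hvQ : v ∈ Q := by
          by_contra h
          exact g3 ⟨Q, hQ, hQ1, by
            rw [Finset.disjoint_insert_left]
            exact ⟨h, hQ2⟩⟩
        have ec : ∀ i ≤ m, sim K F (insert v T) X s i = sim K F T X s i := by
          intro i hi
          apply sim_congr
          · intro w hw
            have : w ≠ v := fun h => by rw [h] at hw; simp [hv] at hw; omega
            simp [this]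
          · intro w hw A
            exact Iff.rfl
        have e1 : sim K F (insert v T) X s (m + 1) =
            (insert v (sim K F T X s m).1, (sim K F T X s m).2) := by
          have : sim K F (insert v T) X s (m + 1) =
            step K F (insert v T) X (sim K F (insert v T) X s m) v :=
              sim_succ K F (insert v T) X s v
          rw [this, ec m le_rfl]
          unfold step
          rw [if_neg g1, if_pos g2, if_pos (Finset.mem_insert_self _ _)]
        have hne : 0 < restc F (sim K F T X s m).1 := by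
          by_contra hcon
          have hcon : ∀ B ∈ F, ¬ Disjoint B (sim K F T X s m).1 := by
            intro B hB hd
            apply hcon
            exact List.countP_pos_iff.2 ⟨B, hB, decide_eq_true hd⟩
          apply g3
          refine ⟨Q.erase v, ⟨?_, ?_⟩, ?_, ?_⟩
          · intro B hB
            have h1 := hcon B hB
            rw [Finset.not_disjoint_iff] at h1
            obtain ⟨a, ha1, ha2⟩ := h1
            refine ⟨a, Finset.mem_inter.2 ⟨ha1, Finset.mem_erase.2 ⟨?_, hQ1 ha2⟩⟩⟩
            rintro rfl
            exact g1 (Finset.mem_union_left _ ha2)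
          · intro A hA hAQ
            exact hQ.2 A hA (hAQ.trans (Finset.erase_subset _ _))
          · intro a ha
            refine Finset.mem_erase.2 ⟨?_, hQ1 ha⟩
            rintro rfl
            exact g1 (Finset.mem_union_left _ ha)
          · rw [Finset.disjoint_insert_left]
            exact ⟨Finset.notMem_erase _ _, hQ2.mono_right (Finset.erase_subset _ _)⟩
        -- the decrease
        have hdec : K * restc F (insert v (sim K F T X s m).1) ≤
            (K - 1) * restc F (sim K F T X s m).1 := by
          have hsplit := restc_insert F (sim K F T X s m).1 v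
          unfold Freq at g2
          rcases Nat.eq_zero_or_pos K with hK | hK
          · subst hK
            omega
          obtain ⟨K, rfl⟩ : ∃ K', K = K' + 1 := ⟨K - 1, by omega⟩
          simp only [Nat.add_sub_cancel]
          nlinarith
        refine ⟨insert v T, X, ?_, ?_, ?_, ?_, ⟨?_, ?_⟩, ?_, hX2⟩
        · intro x hx
          rcases Finset.mem_insert.1 hx with rfl | hx
          · simp [hv]
          · exact (hT x hx).trans (Nat.lt_succ_self m)
        · exact fun p hp => ⟨(hX p hp).1.trans (Nat.lt_succ_self m), (hX p hp).2⟩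
        · rw [e1]
          exact ⟨Q, hQ, Finset.insert_subset hvQ hQ1, hQ2⟩
        · intro x hx
          rcases Finset.mem_insert.1 hx with h | hx
          · rw [h]
            have hvm : ((v : Fin n) : ℕ) = m := rfl
            rw [hvm, ec m le_rfl, e1]
            exact ⟨g1, Finset.mem_insert_self _ _, g3⟩
          · have hxm := hT x hx
            rw [ec x hxm.le, ec (x + 1) hxm]
            exact hF x hx
        · rw [e1, Finset.card_insert_of_notMem hvT, pow_succ, pow_succ]
          calc K ^ T.card * K * restc F (insert v (sim K F T X s m).1)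
              = K ^ T.card * (K * restc F (insert v (sim K F T X s m).1)) := by ring
            _ ≤ K ^ T.card * ((K - 1) * restc F (sim K F T X s m).1) :=
                Nat.mul_le_mul_left _ hdec
            _ = (K - 1) * (K ^ T.card * restc F (sim K F T X s m).1) := by ring
            _ ≤ (K - 1) * ((K - 1) ^ T.card * F.length) := Nat.mul_le_mul_left _ hT1
            _ = (K - 1) ^ T.card * (K - 1) * F.length := by ring
        · intro _
          rw [Finset.card_insert_of_notMem hvT, Nat.add_sub_cancel]
          exact (Nat.le_mul_of_pos_right _ hne).trans hT1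
        · have hr : restc F (sim K F (insert v T) X s (m + 1)).1 ≤
              restc F (sim K F T X s m).1 := by
            rw [e1]
            exact restc_mono F (Finset.subset_insert _ _)
          exact (Nat.mul_le_mul_left _ hr).trans hX1
    · by_cases g3 : Ext F G (insert v (sim K F T X s m).1, (sim K F T X s m).2)
      · apply same
        unfold step
        rw [if_neg g1, if_neg g2, if_neg hvX]
        exact g3
      · -- exception
        have hvQ : v ∉ Q := fun h => g3 ⟨Q, hQ, Finset.insert_subset h hQ1, hQ2⟩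
        have hvD : v ∉ (sim K F T X s m).2 := fun h => g1 (Finset.mem_union_right _ h)
        obtain ⟨A, hA, hAQ⟩ : ∃ A ∈ G, A ⊆ insert v Q := by
          by_contra hcon
          push Not at hcon
          refine g3 ⟨insert v Q, ⟨?_, hcon⟩, Finset.insert_subset_insert _ hQ1, ?_⟩
          · intro B hB
            obtain ⟨a, ha⟩ := hQ.1 B hB
            rw [Finset.mem_inter] at ha
            exact ⟨a, Finset.mem_inter.2 ⟨ha.1, Finset.mem_insert_of_mem ha.2⟩⟩
          · rw [Finset.disjoint_insert_right]
            exact ⟨hvD, hQ2⟩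
        have ec : ∀ i ≤ m, sim K F T ((v, A) :: X) s i = sim K F T X s i := by
          intro i hi
          apply sim_congr
          · intro w hw
            exact Iff.rfl
          · intro w hw A'
            have : w ≠ v := fun h => by rw [h] at hw; simp [hv] at hw; omega
            simp [this]
        have hu : excU ((v, A) :: X) v = A.erase v := by
          unfold excU
          ext j
          simp only [Finset.mem_filter, Finset.mem_univ, true_and, List.mem_cons,
            Finset.mem_erase]
          constructor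
          · rintro ⟨h1, p, hp | hp, h2, h3⟩
            · rw [hp] at h3
              exact ⟨h1, h3⟩
            · exact absurd ⟨p, hp, h2⟩ hvX
          · rintro ⟨h1, h2⟩
            exact ⟨h1, (v, A), Or.inl rfl, rfl, h2⟩
        have e1 : sim K F T ((v, A) :: X) s (m + 1) =
            ((sim K F T X s m).1 ∪ A.erase v, insert v (sim K F T X s m).2) := by
          have : sim K F T ((v, A) :: X) s (m + 1) =
            step K F T ((v, A) :: X) (sim K F T ((v, A) :: X) s m) v :=
              sim_succ K F T ((v, A) :: X) s v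
          rw [this, ec m le_rfl]
          unfold step
          rw [if_neg g1, if_neg g2, if_pos ⟨(v, A), by simp, rfl⟩, hu]
        unfold Freq at g2
        push Not at g2
        have hdec : restc F ((sim K F T X s m).1 ∪ A.erase v) ≤
            cntc F (sim K F T X s m).1 v := restc_exc F _ A v (hcross A hA)
        have hr : restc F ((sim K F T X s m).1 ∪ A.erase v) ≤ restc F (sim K F T X s m).1 :=
          restc_mono F Finset.subset_union_left
        refine ⟨T, (v, A) :: X, ?_, ?_, ?_, ?_, ⟨?_, hT2⟩, ?_, ?_⟩
        · exact fun x hx => (hT x hx).trans (Nat.lt_succ_self m)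
        · intro p hp
          rcases List.mem_cons.1 hp with h | h
          · rw [h]
            exact ⟨by simp [hv], hA⟩
          · exact ⟨(hX p h).1.trans (Nat.lt_succ_self m), (hX p h).2⟩
        · rw [e1]
          refine ⟨Q, hQ, Finset.union_subset hQ1 ?_, ?_⟩
          · intro a ha
            rw [Finset.mem_erase] at ha
            exact (Finset.mem_insert.1 (hAQ ha.2)).resolve_left ha.1
          · rw [Finset.disjoint_insert_left]
            exact ⟨hvQ, hQ2⟩
        · intro x hx
          have hxm := hT x hx
          rw [ec x hxm.le, ec (x + 1) hxm]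
          exact hF x hx
        · rw [e1]
          exact (Nat.mul_le_mul_left _ hr).trans hT1
        · rw [e1, List.length_cons, pow_succ]
          calc K ^ X.length * K * restc F ((sim K F T X s m).1 ∪ A.erase v)
              = K ^ X.length * (K * restc F ((sim K F T X s m).1 ∪ A.erase v)) := by ring
            _ ≤ K ^ X.length * restc F (sim K F T X s m).1 := by
                apply Nat.mul_le_mul_left
                exact (Nat.mul_le_mul_left _ hdec).trans g2.le
            _ ≤ F.length := hX1
        · intro _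
          rw [List.length_cons, Nat.add_sub_cancel]
          exact (Nat.le_mul_of_pos_right _ (by omega)).trans hX1

/-! ### Sizes -/

theorem two_mul_pow_le (K : ℕ) (hK : 2 ≤ K) : 2 * (K - 1) ^ K ≤ K ^ K := by
  obtain ⟨k, rfl⟩ : ∃ k, K = k + 1 := ⟨K - 1, by omega⟩
  rw [Nat.add_sub_cancel]
  have hk : 1 ≤ k := by omega
  -- `(k + 1)^(k + 1) ≥ k^(k + 1) + (k + 1) k^k`
  have h : ∀ m : ℕ, k ^ (m + 1) + (m + 1) * k ^ m ≤ (k + 1) ^ (m + 1) := by
    intro m
    induction m with
    | zero => simp
    | succ m ih =>
      have e1 : k ^ (m + 2) = k * k ^ (m + 1) := by ring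
      have e2 : k ^ (m + 1) = k * k ^ m := by ring
      have e3 : (k + 1) ^ (m + 2) = (k + 1) * (k + 1) ^ (m + 1) := by ring
      have h4 : k * k ^ (m + 1) + (m + 1 + 1) * k ^ (m + 1) ≤
          (k + 1) * (k ^ (m + 1) + (m + 1) * k ^ m) := by
        rw [e2]
        nlinarith [Nat.zero_le ((m + 1) * k ^ m)]
      calc k ^ (m + 1 + 1) + (m + 1 + 1) * k ^ (m + 1)
          = k * k ^ (m + 1) + (m + 1 + 1) * k ^ (m + 1) := by ring
        _ ≤ (k + 1) * (k ^ (m + 1) + (m + 1) * k ^ m) := h4
        _ ≤ (k + 1) * (k + 1) ^ (m + 1) := Nat.mul_le_mul_left _ ih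
        _ = (k + 1) ^ (m + 1 + 1) := by ring
  have h2 := h k
  have h3 : k ^ (k + 1) ≤ (k + 1) * k ^ k := by
    rw [pow_succ]
    nlinarith [Nat.zero_le (k ^ k)]
  omega

theorem card_bound (K N t m : ℕ) (hK : 2 ≤ K) (hN : N < 2 ^ m)
    (h : t ≠ 0 → K ^ (t - 1) ≤ (K - 1) ^ (t - 1) * N) : t ≤ K * m := by
  by_contra hcon
  push Not at hcon
  have ht : t ≠ 0 := by omega
  obtain ⟨r, hr⟩ : ∃ r, t - 1 = K * m + r := ⟨t - 1 - K * m, by omega⟩
  have h1 := h ht
  rw [hr, pow_add, pow_add] at h1
  have h2 : 2 ^ m * (K - 1) ^ (K * m) ≤ K ^ (K * m) := by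
    rw [pow_mul, pow_mul, ← mul_pow]
    exact Nat.pow_le_pow_left (two_mul_pow_le K hK) m
  have h3 : (K - 1) ^ r ≤ K ^ r := Nat.pow_le_pow_left (by omega) r
  have h4 : 0 < (K - 1) ^ (K * m) * (K - 1) ^ r :=
    Nat.mul_pos (Nat.pow_pos (by omega)) (Nat.pow_pos (by omega))
  have h5 : 2 ^ m * ((K - 1) ^ (K * m) * (K - 1) ^ r) ≤ (K - 1) ^ (K * m) * (K - 1) ^ r * N := by
    calc 2 ^ m * ((K - 1) ^ (K * m) * (K - 1) ^ r)
        = 2 ^ m * (K - 1) ^ (K * m) * (K - 1) ^ r := by ring
      _ ≤ K ^ (K * m) * K ^ r := Nat.mul_le_mul h2 h3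
      _ ≤ _ := h1
  rw [mul_comm _ N] at h5
  have h6 := Nat.le_of_mul_le_mul_right h5 h4
  omega

theorem card_bound' (K N t e : ℕ) (hK : 2 ≤ K) (hN : N < K ^ e)
    (h : t ≠ 0 → K ^ (t - 1) ≤ N) : t ≤ e := by
  by_contra hcon
  push Not at hcon
  have h1 := h (by omega)
  have h2 : K ^ e ≤ K ^ (t - 1) := Nat.pow_le_pow_right (by omega) (by omega)
  omega

/-- Greedy covers. -/
theorem cover {α : Type*} [DecidableEq α] (S : Finset (Finset α)) (m : ℕ) : ∀ P : Finset α,
    (∀ Q ⊆ P, Q.Nonempty → ∃ A ∈ S, Q.card ≤ 2 * (A ∩ Q).card) → P.card < 2 ^ m →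
    ∃ T : List (Finset α), (∀ A ∈ T, A ∈ S) ∧ T.length ≤ m ∧ ∀ x ∈ P, ∃ A ∈ T, x ∈ A := by
  induction m with
  | zero =>
    intro P h hP
    have : P = ∅ := by
      rw [← Finset.card_eq_zero]
      simpa using hP
    subst this
    exact ⟨[], by simp, by simp, by simp⟩
  | succ m ih =>
    intro P h hP
    rcases P.eq_empty_or_nonempty with rfl | hne
    · exact ⟨[], by simp, by simp, by simp⟩
    · obtain ⟨A, hA, hc⟩ := h P subset_rfl hne
      obtain ⟨T, hT, hTc, hTP⟩ := ih (P \ A)
        (fun Q hQ => h Q (hQ.trans Finset.sdiff_subset)) (by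
          have h1 : (P \ A).card + (P ∩ A).card = P.card := Finset.card_sdiff_add_card_inter P A
          rw [Finset.inter_comm] at h1
          rw [pow_succ] at hP
          omega)
      refine ⟨A :: T, ?_, ?_, ?_⟩
      · intro x hx
        rcases List.mem_cons.1 hx with rfl | hx
        · exact hA
        · exact hT x hx
      · rw [List.length_cons]
        omega
      · intro x hx
        by_cases hxA : x ∈ A
        · exact ⟨A, by simp, hxA⟩
        · obtain ⟨B, hB, hxB⟩ := hTP x (Finset.mem_sdiff.2 ⟨hx, hxA⟩)
          exact ⟨B, List.mem_cons_of_mem _ hB, hxB⟩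

/-- The alternative: `S` is covered by few sets `a y`, `y ∈ T`, or `T` is covered by few sets `b x`,
`x ∈ S`, if `x ∈ a y` or `y ∈ b x` for all `x`, `y`. -/
theorem alternative {α : Type*} [DecidableEq α] (S T : Finset α) (a b : α → Finset α)
    (h : ∀ x ∈ S, ∀ y ∈ T, x ∈ a y ∨ y ∈ b x) (k l : ℕ) (hS : S.card < 2 ^ k)
    (hT : T.card < 2 ^ l) :
    (∃ As : List (Finset α), (∀ A ∈ As, A ∈ T.image a) ∧ As.length ≤ k ∧
      ∀ x ∈ S, ∃ A ∈ As, x ∈ A) ∨
    (∃ Bs : List (Finset α), (∀ B ∈ Bs, B ∈ S.image b) ∧ Bs.length ≤ l ∧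
      ∀ y ∈ T, ∃ B ∈ Bs, y ∈ B) := by
  by_cases hc : ∀ Q ⊆ S, Q.Nonempty → ∃ A ∈ T.image a, Q.card ≤ 2 * (A ∩ Q).card
  · exact Or.inl (cover _ k S hc hS)
  · right
    push Not at hc
    obtain ⟨Q, hQS, hQ, hQA⟩ := hc
    apply cover _ l T _ hT
    intro R hR hRne
    by_contra hcon
    push Not at hcon
    -- double counting of the pairs `(x, y) ∈ Q × R` with `y ∈ b x`
    have h1 : ∑ x ∈ Q, (b x ∩ R).card = ∑ y ∈ R, (Q.filter (fun x => y ∈ b x)).card := by
      simp only [Finset.card_eq_sum_ones, Finset.sum_filter]
      rw [Finset.sum_comm]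
      apply Finset.sum_congr rfl
      intro x _
      rw [← Finset.sum_filter, ← Finset.card_eq_sum_ones, ← Finset.card_eq_sum_ones]
      congr 1
      ext y
      simp [and_comm]
    have h2 : ∀ x ∈ Q, 2 * (b x ∩ R).card < R.card := fun x hx =>
      hcon (b x) (Finset.mem_image_of_mem _ (hQS hx))
    have h3 : ∀ y ∈ R, Q.card ≤ 2 * (Q.filter (fun x => y ∈ b x)).card := by
      intro y hy
      have h4 := hQA (a y) (Finset.mem_image_of_mem _ (hR hy))
      have h5 : Q.card ≤ (a y ∩ Q).card + (Q.filter (fun x => y ∈ b x)).card := by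
        rw [← Finset.card_union_add_card_inter]
        refine le_trans (Finset.card_le_card ?_) (Nat.le_add_right _ _)
        intro x hx
        rw [Finset.mem_union, Finset.mem_inter, Finset.mem_filter]
        rcases h x (hQS hx) y (hR hy) with h6 | h6
        · exact Or.inl ⟨h6, hx⟩
        · exact Or.inr ⟨hx, h6⟩
      omega
    have h6 : ∑ x ∈ Q, 2 * (b x ∩ R).card < ∑ x ∈ Q, R.card := Finset.sum_lt_sum_of_nonempty hQ h2
    have h7 : ∑ y ∈ R, Q.card ≤ ∑ y ∈ R, 2 * (Q.filter (fun x => y ∈ b x)).card :=
      Finset.sum_le_sum h3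
    rw [← Finset.mul_sum, Finset.sum_const, smul_eq_mul] at h6 h7
    rw [h1] at h6
    nlinarith [mul_comm Q.card R.card]

end Pool.Agent.Helper64.SQ
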