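import Mathlib
import Pool.Agent.Helper64.SQ.Core

/-!
# The explicit candidates for witnesses of non-duality are complete
-/

set_option autoImplicit false

namespace Pool.Agent.Helper64.SQ

variable {n : ℕ}

theorem wit_compl {F G : List (Finset (Fin n))} {P : Finset (Fin n)} (h : Wit F G P) :
    Wit G F Pᶜ := by
  constructor
  · intro A hA
    have := h.2 A hA
    rw [Finset.not_subset] at this
    obtain ⟨a, ha, haP⟩ := this
    exact ⟨a, Finset.mem_inter.2 ⟨ha, Finset.mem_compl.2 haP⟩⟩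
  · intro B hB hBP
    obtain ⟨b, hb⟩ := h.1 B hB
    rw [Finset.mem_inter] at hb
    exact absurd hb.2 (Finset.mem_compl.1 (hBP hb.1))

theorem step_snd (K : ℕ) (F : List (Finset (Fin n))) (C : Finset (Fin n))
    (X : List (Fin n × Finset (Fin n))) (s : Finset (Fin n) × Finset (Fin n)) (v : Fin n) :
    (step K F C X s v).2 ⊆ insert v s.2 := by
  unfold step
  split_ifs
  · exact Finset.subset_insert _ _
  · exact Finset.subset_insert _ _
  · exact le_rfl
  · exact le_rfl
  · exact Finset.subset_insert _ _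

/-- One phase: the canonical run, with the sizes of the forced and the exceptional sets. -/
theorem phase (K : ℕ) (hK : 2 ≤ K) (F G : List (Finset (Fin n)))
    (hcross : ∀ A ∈ G, ∀ B ∈ F, (A ∩ B).Nonempty) (m e : ℕ) (hF : F.length < 2 ^ m)
    (hFe : F.length < K ^ e) (s : Finset (Fin n) × Finset (Fin n)) (hs : Ext F G s) :
    ∃ (T : Finset (Fin n)) (X : List (Fin n × Finset (Fin n))),
      (∀ p ∈ X, p.2 ∈ G) ∧ X.length ≤ e ∧ T.card ≤ K * m ∧
      (∀ i ≤ n, Ext F G (sim K F T X s i)) ∧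
      (∀ x ∈ T, x ∉ s.1 ∪ s.2 ∧ x ∈ (sim K F T X s (x + 1)).1) ∧
      ∀ i, ∀ P, Wit F G P → (sim K F T X s i).1 ⊆ P → Disjoint (sim K F T X s i).2 P →
        ∀ x ∈ T, (x : ℕ) < i → ∃ B ∈ F, B ∩ P = {x} := by
  obtain ⟨T, X, -, hX, hE, hFo, ⟨-, hT⟩, -, hXl⟩ := run K F G hcross s hs n le_rfl
  refine ⟨T, X, fun p hp => (hX p hp).2, card_bound' K _ _ e hK hFe hXl,
    card_bound K _ _ m hK hF hT, fun i hi => hE.mono (sim_mono K F T X s hi), ?_, ?_⟩
  · intro x hx
    refine ⟨fun h => (hFo x hx).1 ?_, (hFo x hx).2.1⟩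
    have := sim_mono K F T X s (Nat.zero_le x)
    rcases Finset.mem_union.1 h with h | h
    · exact Finset.mem_union_left _ (this.1 h)
    · exact Finset.mem_union_right _ (this.2 h)
  · intro i P hP h1 h2 x hx hxi
    by_contra hcon
    push Not at hcon
    have hm := sim_mono K F T X s hxi.le
    apply (hFo x hx).2.2
    refine ⟨P.erase x, ⟨?_, ?_⟩, ?_, ?_⟩
    · intro B hB
      by_contra he
      rw [Finset.not_nonempty_iff_eq_empty] at he
      apply hcon B hB
      obtain ⟨b, hb⟩ := hP.1 B hB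
      have key : ∀ c ∈ B ∩ P, c = x := by
        intro c hc
        by_contra hcx
        rw [Finset.mem_inter] at hc
        have : c ∈ B ∩ P.erase x :=
          Finset.mem_inter.2 ⟨hc.1, Finset.mem_erase.2 ⟨hcx, hc.2⟩⟩
        rw [he] at this
        simp at this
      have hbx := key b hb
      rw [Finset.eq_singleton_iff_unique_mem]
      exact ⟨hbx ▸ hb, key⟩
    · exact fun A hA hAP => hP.2 A hA (hAP.trans (Finset.erase_subset _ _))
    · intro c hc
      refine Finset.mem_erase.2 ⟨?_, h1 (hm.1 hc)⟩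
      rintro rfl
      exact (hFo c hx).1 (Finset.mem_union_left _ hc)
    · rw [Finset.disjoint_insert_left]
      exact ⟨Finset.notMem_erase _ _,
        (h2.mono_left hm.2).mono_right (Finset.erase_subset _ _)⟩

theorem Ext.disj {F G : List (Finset (Fin n))} {s : Finset (Fin n) × Finset (Fin n)}
    (h : Ext F G s) : Disjoint s.1 s.2 := by
  obtain ⟨P, -, h1, h2⟩ := h
  exact (h2.mono_right h1).symm

theorem Ext.swap {F G : List (Finset (Fin n))} {s : Finset (Fin n) × Finset (Fin n)}
    (h : Ext F G s) : Ext G F s.swap := by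
  obtain ⟨P, hP, h1, h2⟩ := h
  refine ⟨Pᶜ, wit_compl hP, ?_, ?_⟩
  · intro x hx
    exact Finset.mem_compl.2 (fun hxP => Finset.disjoint_left.1 h2 hx hxP)
  · rw [Finset.disjoint_left]
    intro x hx hxP
    exact Finset.mem_compl.1 hxP (h1 hx)

/-- **The explicit candidates are complete.** If the cross-intersecting families `H`, `L` have a
witness of non-duality, then one is decoded from `k + k` members and `e + e` pairs
(vertex, member), where `2 ^ k > K m`, `2 ^ m > |H|, |L|` and `K ^ e > |H|, |L|`. -/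
theorem complete (K : ℕ) (hK : 2 ≤ K) (H L : List (Finset (Fin n)))
    (hcross : ∀ A ∈ H, ∀ B ∈ L, (A ∩ B).Nonempty) (m k e : ℕ) (hH : H.length < 2 ^ m)
    (hL : L.length < 2 ^ m) (hk : K * m < 2 ^ k) (hHe : H.length < K ^ e) (hLe : L.length < K ^ e)
    (hw : ∃ Z, Wit H L Z) :
    ∃ (As Bs : List (Finset (Fin n))) (X Y : List (Fin n × Finset (Fin n))) (i : ℕ) (b : Bool),
      (∀ A ∈ As, A ∈ H) ∧ As.length ≤ k ∧ (∀ B ∈ Bs, B ∈ L) ∧ Bs.length ≤ k ∧
      (∀ p ∈ X, p.2 ∈ H) ∧ X.length ≤ e ∧ (∀ p ∈ Y, p.2 ∈ L) ∧ Y.length ≤ e ∧ i ≤ n ∧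
      Wit H L (dec K H L As Bs X Y i b) := by
  classical
  have hs : Ext L H ((∅ : Finset (Fin n)), (∅ : Finset (Fin n))) := by
    obtain ⟨Z, hZ⟩ := hw
    exact ⟨Zᶜ, wit_compl hZ, by simp, by simp⟩
  obtain ⟨T, X, hX, hXl, hTc, hE, hT0, hB⟩ := phase K hK L H hcross m e hL hLe _ hs
  set s : ℕ → Finset (Fin n) × Finset (Fin n) := sim K L T X (∅, ∅) with hsdef
  have hcross' : ∀ B ∈ L, ∀ A ∈ H, (B ∩ A).Nonempty := fun B hB A hA => by
    rw [Finset.inter_comm]
    exact hcross A hA B hB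
  -- the two cases for every `i`
  let P1 : ℕ → Prop := fun i => ∃ As : List (Finset (Fin n)), (∀ A ∈ As, A ∈ H) ∧ As.length ≤ k ∧
    (∀ x ∈ T, (x : ℕ) < i → ∃ A ∈ As, x ∈ A) ∧ ∀ A ∈ As, ∀ v ∈ A, v ∉ (s i).2
  let P2 : ℕ → Prop := fun i => ∃ (Bs : List (Finset (Fin n))) (Y : List (Fin n × Finset (Fin n))),
    (∀ B ∈ Bs, B ∈ L) ∧ Bs.length ≤ k ∧ (∀ p ∈ Y, p.2 ∈ L) ∧ Y.length ≤ e ∧
    Wit H L (sim K H (cov2 Bs) Y (s i).swap n).1
  have hcase : ∀ i ≤ n, P1 i ∨ P2 i := by
    intro i hi
    obtain ⟨S, Y, hY, hYl, hSc, hE2, hS0, hA⟩ :=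
      phase K hK H L hcross' m e hH hHe (s i).swap (hE i hi).swap
    set r := sim K H S Y (s i).swap n with hr
    obtain ⟨Z, hZ, hZ1, hZ2⟩ := hE2 n le_rfl
    rw [← hr] at hZ1 hZ2
    have htot : ∀ v, v ∈ r.1 ∪ r.2 := sim_total K H S Y (s i).swap
    have hZr : Z = r.1 := by
      apply Finset.Subset.antisymm _ hZ1
      intro z hz
      rcases Finset.mem_union.1 (htot z) with h | h
      · exact h
      · exact absurd hz (Finset.disjoint_left.1 hZ2 h)
    have hm := sim_mono K H S Y (s i).swap (Nat.zero_le n)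
    have hm1 : (s i).2 ⊆ r.1 := hm.1
    have hm2 : (s i).1 ⊆ r.2 := hm.2
    have hdis : Disjoint r.1 r.2 := (hZr ▸ hZ2).symm
    have hWit : Wit H L r.1 := hZr ▸ hZ
    have hAy : ∀ y ∈ S, ∃ A ∈ H, A ∩ r.1 = {y} := fun y hy =>
      hA n r.1 hWit le_rfl hdis.symm y hy y.2
    have hBx : ∀ x ∈ T, (x : ℕ) < i → ∃ B ∈ L, B ∩ r.1ᶜ = {x} := by
      intro x hx hxi
      refine hB i r.1ᶜ (wit_compl hWit) ?_ ?_ x hx hxi
      · intro a ha
        exact Finset.mem_compl.2 (fun h => Finset.disjoint_left.1 hdis h (hm2 ha))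
      · rw [Finset.disjoint_left]
        intro a ha hac
        exact Finset.mem_compl.1 hac (hm1 ha)
    choose! a haH ha using hAy
    choose! b hbL hb using hBx
    have hrel : ∀ x ∈ T.filter (fun x : Fin n => (x : ℕ) < i), ∀ y ∈ S, x ∈ a y ∨ y ∈ b x := by
      intro x hx y hy
      rw [Finset.mem_filter] at hx
      obtain ⟨u, hu⟩ := hcross (a y) (haH y hy) (b x) (hbL x hx.1 hx.2)
      rw [Finset.mem_inter] at hu
      by_cases hur : u ∈ r.1
      · have : u ∈ a y ∩ r.1 := Finset.mem_inter.2 ⟨hu.1, hur⟩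
        rw [ha y hy, Finset.mem_singleton] at this
        exact Or.inr (this ▸ hu.2)
      · have : u ∈ b x ∩ r.1ᶜ := Finset.mem_inter.2 ⟨hu.2, Finset.mem_compl.2 hur⟩
        rw [hb x hx.1 hx.2, Finset.mem_singleton] at this
        exact Or.inl (this ▸ hu.1)
    have hc1 : (T.filter (fun x : Fin n => (x : ℕ) < i)).card < 2 ^ k :=
      lt_of_le_of_lt ((Finset.card_filter_le _ _).trans hTc) hk
    have hc2 : S.card < 2 ^ k := lt_of_le_of_lt hSc hk
    rcases alternative _ S a b hrel k k hc1 hc2 with ⟨As, hAs, hAl, hAc⟩ | ⟨Bs, hBs, hBl, hBc⟩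
    · left
      refine ⟨As, ?_, hAl, fun x hx hxi => hAc x (Finset.mem_filter.2 ⟨hx, hxi⟩), ?_⟩
      · intro A hA'
        obtain ⟨y, hy, rfl⟩ := Finset.mem_image.1 (hAs A hA')
        exact haH y hy
      · intro A hA' v hv hvs
        obtain ⟨y, hy, rfl⟩ := Finset.mem_image.1 (hAs A hA')
        have : v ∈ a y ∩ r.1 := Finset.mem_inter.2 ⟨hv, hm1 hvs⟩
        rw [ha y hy, Finset.mem_singleton] at this
        rw [this] at hvs
        exact (hS0 y hy).1 (Finset.mem_union_left _ hvs)
    · right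
      refine ⟨Bs, Y, ?_, hBl, hY, hYl, ?_⟩
      · intro B hB'
        obtain ⟨x, hx, rfl⟩ := Finset.mem_image.1 (hBs B hB')
        rw [Finset.mem_filter] at hx
        exact hbL x hx.1 hx.2
      · have e1 : sim K H (cov2 Bs) Y (s i).swap n = r := by
          apply sim_cover
          · intro v _ hv
            obtain ⟨B, hB1, hB2⟩ := hBc v hv
            exact Finset.mem_filter.2 ⟨Finset.mem_univ _, B, hB1, hB2⟩
          · intro v _ hv hvc hvr
            obtain ⟨B, hB1, hB2⟩ := (Finset.mem_filter.1 hvc).2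
            obtain ⟨x, hx, rfl⟩ := Finset.mem_image.1 (hBs B hB1)
            rw [Finset.mem_filter] at hx
            have : v ∈ b x ∩ r.1ᶜ := Finset.mem_inter.2 ⟨hB2, Finset.mem_compl.2
              (fun h => Finset.disjoint_left.1 hdis h hvr)⟩
            rw [hb x hx.1 hx.2, Finset.mem_singleton] at this
            rw [this] at hv
            apply hv
            apply Finset.mem_union_right
            exact (sim_mono K L T X (∅, ∅) (show (x : ℕ) + 1 ≤ i from hx.2)).1 (hT0 x hx.1).2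
        rw [e1]
        exact hWit
  -- the second case holds for `i = n`
  have hn : P2 n := by
    obtain ⟨P, hP, h1, h2⟩ := (hE n le_rfl).swap
    have htot : ∀ v, v ∈ (s n).1 ∪ (s n).2 := sim_total K L T X (∅, ∅)
    refine ⟨[], [], by simp, by simp, by simp, by simp, ?_⟩
    have hall : ∀ i, sim K H (cov2 []) [] (s n).swap i = (s n).swap := by
      intro i
      induction i with
      | zero => rfl
      | succ i ih =>
        rw [sim]
        split_ifs with h
        · rw [ih, step_assigned]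
          rw [Finset.union_comm]
          exact htot _
        · exact ih
    rw [hall]
    have : P = (s n).swap.1 := by
      apply Finset.Subset.antisymm _ h1
      intro z hz
      rcases Finset.mem_union.1 (htot z) with h | h
      · exact absurd hz (Finset.disjoint_left.1 h2 h)
      · exact h
    exact this ▸ hP
  have h0 : P1 0 := ⟨[], by simp, by simp, by simp, by simp⟩
  -- the switch
  obtain ⟨i, j, hin, hji, hij, hP2, hP1⟩ : ∃ i j, i ≤ n ∧ j ≤ i ∧ i ≤ j + 1 ∧ P2 i ∧ P1 j := by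
    have hex : ∃ i, P2 i := ⟨n, hn⟩
    have hle : Nat.find hex ≤ n := Nat.find_min' hex hn
    rcases Nat.eq_zero_or_pos (Nat.find hex) with h | h
    · exact ⟨Nat.find hex, 0, hle, Nat.zero_le _, by omega, Nat.find_spec hex, h0⟩
    · refine ⟨Nat.find hex, Nat.find hex - 1, hle, by omega, by omega, Nat.find_spec hex, ?_⟩
      rcases hcase (Nat.find hex - 1) (by omega) with h' | h'
      · exact h'
      · exact absurd h' (Nat.find_min hex (by omega))
  obtain ⟨As, hAs, hAl, hAc, hAd⟩ := hP1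
  obtain ⟨Bs, Y, hBs, hBl, hY, hYl, hWit⟩ := hP2
  refine ⟨As, Bs, X, Y, i, decide (∃ v ∈ T, (v : ℕ) + 1 = i), hAs, hAl, hBs, hBl, hX, hXl, hY, hYl,
    hin, ?_⟩
  have e1 : sim K L (cov1 As i (decide (∃ v ∈ T, (v : ℕ) + 1 = i))) X (∅, ∅) i = s i := by
    apply sim_cover
    · intro v hvi hvT
      rw [cov1, Finset.mem_filter]
      refine ⟨Finset.mem_univ _, ?_⟩
      split_ifs with h
      · exact decide_eq_true ⟨v, hvT, h⟩
      · exact hAc v hvT (by omega)
    · intro v hvi _ hvc hvs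
      rw [cov1, Finset.mem_filter] at hvc
      have hvc' := hvc.2
      split_ifs at hvc' with h
      · obtain ⟨w, hwT, hwi⟩ := of_decide_eq_true hvc'
        have hwv : w = v := Fin.ext (by omega)
        subst hwv
        have h1 := (hT0 w hwT).2
        rw [hwi] at h1
        exact Finset.disjoint_left.1 (hE i hin).disj h1 hvs
      · obtain ⟨A, hA1, hA2⟩ := hvc'
        apply hAd A hA1 v hA2
        rcases Nat.lt_or_ge j i with hlt | hge
        · have hij' : i = j + 1 := by omega
          have hjn : j < n := by omega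
          have h2 : s i = step K L T X (s j) ⟨j, hjn⟩ := by
            rw [hij']
            exact sim_succ K L T X (∅, ∅) ⟨j, hjn⟩
          change v ∈ (s i).2 at hvs
          rw [h2] at hvs
          rcases Finset.mem_insert.1 (step_snd _ _ _ _ _ _ hvs) with h3 | h3
          · exfalso
            apply h
            rw [h3, hij']
          · exact h3
        · have : i = j := by omega
          rw [← this]
          exact hvs
  rw [dec, e1]
  exact hWit

end Pool.Agent.Helper64.SQ
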