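import Mathlib
import Pool.Agent.Helper68.PT.Ext2
import Pool.Agent.Helper81.VCP.Defs

/-!
# SQ: the decoding of witnesses, for vectors

Vector version of the definitions of `Core.lean`: sets are lists of Booleans of length `n` (`mem`), the
families `E`, `L` are lists of vectors, the covers and the lists of exceptions are lists of pairs
(number, vector) (in the covers the numbers are ignored), taken from the truncated lists `prs`.
-/

set_option autoImplicit false

namespace Pool.Agent.Helper64.SQ

open Pool.Agent.Helper36 Pool.Agent.Helper81.VCP

/-- `B` and `P` are disjoint. -/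
def disjV (n : ℕ) (B P : List Bool) : Bool := (List.range n).all fun j => !(mem B j && mem P j)

/-- The number of the members of `F` disjoint from `P`. -/
def restcV (n : ℕ) (F : List (List Bool)) (P : List Bool) : ℕ :=
  (F.filter fun B => disjV n B P).length

/-- The number of the members of `F` disjoint from `P` which contain `v`. -/
def cntcV (n : ℕ) (F : List (List Bool)) (P : List Bool) (v : ℕ) : ℕ :=
  (F.filter fun B => disjV n B P && mem B v).length

/-- `v` is frequent. -/
def freqV (K n : ℕ) (F : List (List Bool)) (P : List Bool) (v : ℕ) : Bool :=
  decide (restcV n F P ≤ K * cntcV n F P v)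

/-- `v` is an exceptional vertex. -/
def excV (X : List (ℕ × List Bool)) (v : ℕ) : Bool := X.any fun p => decide (p.1 = v)

/-- The vector of `insert v P`. -/
def insV (n : ℕ) (P : List Bool) (v : ℕ) : List Bool :=
  (List.range n).map fun j => decide (j = v) || mem P j

/-- The vector of `P ∪ excU X v`. -/
def exuV (n : ℕ) (P : List Bool) (X : List (ℕ × List Bool)) (v : ℕ) : List Bool :=
  (List.range n).map fun j => mem P j ||
    (!(decide (j = v)) && X.any fun p => decide (p.1 = v) && mem p.2 j)

/-- One step of the decoding. -/
def stepV (K n : ℕ) (F : List (List Bool)) (C : List Bool) (X : List (ℕ × List Bool))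
    (s : List Bool × List Bool) (v : ℕ) : List Bool × List Bool :=
  bif mem s.1 v || mem s.2 v then s
  else bif freqV K n F s.1 v then
    (bif mem C v then (insV n s.1 v, s.2) else (s.1, insV n s.2 v))
  else bif excV X v then (exuV n s.1 X v, insV n s.2 v) else (insV n s.1 v, s.2)

/-- The vertices smaller than `i` are decided. -/
def simV (K n : ℕ) (F : List (List Bool)) (C : List Bool) (X : List (ℕ × List Bool))
    (s : List Bool × List Bool) (i : ℕ) : List Bool × List Bool :=
  PT.recN s (fun v t => stepV K n F C X t v) i

/-- The first cover. -/
def cov1V (n : ℕ) (As : List (ℕ × List Bool)) (i : ℕ) (b : Bool) : List Bool :=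
  (List.range n).map fun j => bif decide (j + 1 = i) then b else As.any fun p => mem p.2 j

/-- The second cover. -/
def cov2V (n : ℕ) (Bs : List (ℕ × List Bool)) : List Bool :=
  (List.range n).map fun j => Bs.any fun p => mem p.2 j

/-- The empty set. -/
def zeroV (n : ℕ) : List Bool := (List.range n).map fun _ => false

/-- The decoding of a witness. -/
def decV (K n : ℕ) (E L : List (List Bool)) (As Bs X Y : List (ℕ × List Bool)) (i : ℕ) (b : Bool) :
    List Bool :=
  (simV K n E (cov2V n Bs) Y (simV K n L (cov1V n As i b) X (zeroV n, zeroV n) i).swap n).1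

/-- The least `q` with `c < K ^ q` (for `K ≥ 2`). -/
noncomputable def lgK (K c : ℕ) : ℕ :=
  PT.mu (c + 1) (fun q => PT.recN c (fun _ x => x / K) q = 0)

/-- The bound for the logarithms. -/
noncomputable def mS (E L : List (List Bool)) : ℕ := lgK 2 (E.length + L.length)

/-- The number of covering sets. -/
noncomputable def kS (K : ℕ) (E L : List (List Bool)) : ℕ := lgK 2 (K * mS E L)

/-- The number of exceptions. -/
noncomputable def eS (K : ℕ) (E L : List (List Bool)) : ℕ := lgK K (E.length + L.length)

/-- The candidates. -/
def allS (K n : ℕ) (E L : List (List Bool)) (WA WB WX WY : List (List (ℕ × List Bool))) :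
    List (List Bool) :=
  (List.range (n + 1)).flatMap fun i => [false, true].flatMap fun b =>
    WA.flatMap fun As => WX.flatMap fun X => WB.flatMap fun Bs => WY.map fun Y =>
      decV K n E L As Bs X Y i b

/-- The search for a new minimal transversal. -/
noncomputable def nextS (P n : ℕ) (E L : List (List Bool)) (K : ℕ) : Option (List Bool) :=
  ((allS K n E L (prs P n E (kS K E L)) (prs P n L (kS K E L)) (prs P n E (eS K E L))
    (prs P n L (eS K E L))).find? (good n E L)).map (minim n E)

/-- The search is complete and no list is truncated. -/
noncomputable def feasS (P n : ℕ) (E L : List (List Bool)) (K : ℕ) : Bool :=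
  (decide (2 ≤ K) && decide ((prs P n E (kS K E L)).length ≤ P)) &&
    ((decide ((prs P n L (kS K E L)).length ≤ P) &&
      decide ((prs P n E (eS K E L)).length ≤ P)) &&
      decide ((prs P n L (eS K E L)).length ≤ P))

end Pool.Agent.Helper64.SQ
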