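import Mathlib
import Pool.Agent.Helper81.VCP.Defs
import Pool.Agent.Helper81.VCP.K3
import Pool.Agent.Helper81.VCP.K4
import Pool.Agent.Helper64.SQ.Core
import Pool.Agent.Helper64.SQ.VDefs

/-!
# SQ-Dict: dictionary between the decoding for sets and for vectors

`vec`, `mem_vec_fin`, `ext_mem_K3`, `length_vec` of `VCP/K3.lean`. `restcV`, `cntcV`: `List.filter_map`,
`List.countP_eq_length_filter`. `simV`: induction on `i`.
-/

set_option autoImplicit false

namespace Pool.Agent.Helper64.SQ

open Pool.Agent.Helper36 Pool.Agent.Helper81.VCP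

variable {n : ℕ}

/-- The pair of vectors of a pair of sets. -/
def vec2 (s : Finset (Fin n) × Finset (Fin n)) : List Bool × List Bool := (vec s.1, vec s.2)

/-- The list of pairs of numbers and vectors. -/
def prv (X : List (Fin n × Finset (Fin n))) : List (ℕ × List Bool) :=
  X.map fun p => ((p.1 : ℕ), vec p.2)

/-- The list of pairs of a list of sets. -/
def lsv (As : List (Finset (Fin n))) : List (ℕ × List Bool) := As.map fun A => (0, vec A)

/-- A vector which is built entry by entry. -/
private theorem map_range_vec (f : ℕ → Bool) (T : Finset (Fin n))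
    (h : ∀ j : Fin n, f j = true ↔ j ∈ T) : (List.range n).map f = vec T := by
  apply ext_mem_K3
  · rw [List.length_map, List.length_range, length_vec]
  · intro j hj
    rw [List.length_map, List.length_range] at hj
    have h1 : mem ((List.range n).map f) j = f j := by
      rw [mem, List.getD_eq_getElem _ _ (by simpa using hj)]
      simp
    rw [h1]
    have h2 := h ⟨j, hj⟩
    have h3 := mem_vec_fin T ⟨j, hj⟩
    rw [h3]
    exact h2

private theorem disjV_vec (B P : Finset (Fin n)) :
    disjV n (vec B) (vec P) = decide (Disjoint B P) := by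
  rw [Bool.eq_iff_iff, decide_eq_true_eq, disjV, List.all_eq_true, Finset.disjoint_left]
  constructor
  · intro h j hj hP
    have h1 := h j (List.mem_range.2 j.2)
    rw [(mem_vec_fin B j).2 hj, (mem_vec_fin P j).2 hP] at h1
    exact absurd h1 (by decide)
  · intro h j hj
    rw [List.mem_range] at hj
    by_cases hB : mem (vec B) j = true
    · by_cases hP : mem (vec P) j = true
      · exact absurd ((mem_vec_fin P ⟨j, hj⟩).1 hP) (h ((mem_vec_fin B ⟨j, hj⟩).1 hB))
      · rw [Bool.not_eq_true] at hP
        rw [hP, Bool.and_false, Bool.not_false]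
    · rw [Bool.not_eq_true] at hB
      rw [hB, Bool.false_and, Bool.not_false]

private theorem mem_vec_bool (B : Finset (Fin n)) (v : Fin n) : mem (vec B) v = decide (v ∈ B) := by
  rw [Bool.eq_iff_iff, decide_eq_true_eq]
  exact mem_vec_fin B v

theorem restcV_vec (F : List (Finset (Fin n))) (P : Finset (Fin n)) :
    restcV n (F.map vec) (vec P) = restc F P := by
  unfold restcV restc
  rw [List.filter_map, List.length_map, List.countP_eq_length_filter]
  congr 1
  apply List.filter_congr
  intro B _
  exact disjV_vec B P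

theorem cntcV_vec (F : List (Finset (Fin n))) (P : Finset (Fin n)) (v : Fin n) :
    cntcV n (F.map vec) (vec P) v = cntc F P v := by
  unfold cntcV cntc
  rw [List.filter_map, List.length_map, List.countP_eq_length_filter]
  congr 1
  apply List.filter_congr
  intro B _
  simp only [Function.comp_apply]
  rw [disjV_vec, mem_vec_bool, ← Bool.decide_and]

private theorem freqV_vec (K : ℕ) (F : List (Finset (Fin n))) (P : Finset (Fin n)) (v : Fin n) :
    freqV K n (F.map vec) (vec P) v = decide (Freq K F P v) := by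
  rw [Bool.eq_iff_iff, decide_eq_true_eq]
  unfold freqV Freq
  rw [restcV_vec, cntcV_vec, decide_eq_true_eq]

private theorem excV_prv (X : List (Fin n × Finset (Fin n))) (v : Fin n) :
    excV (prv X) v = decide (Exc X v) := by
  rw [Bool.eq_iff_iff, decide_eq_true_eq]
  unfold excV prv Exc
  rw [List.any_eq_true]
  constructor
  · rintro ⟨p, hp, h⟩
    rw [List.mem_map] at hp
    obtain ⟨a, ha, rfl⟩ := hp
    exact ⟨a, ha, Fin.ext (of_decide_eq_true h)⟩
  · rintro ⟨p, hp, h⟩
    refine ⟨((p.1 : ℕ), vec p.2), List.mem_map.2 ⟨p, hp, rfl⟩, ?_⟩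
    simp only [h, decide_true]

private theorem insV_vec (P : Finset (Fin n)) (v : Fin n) :
    insV n (vec P) v = vec (insert v P) := by
  unfold insV
  apply map_range_vec
  intro j
  rw [Bool.or_eq_true, decide_eq_true_eq, mem_vec_fin, Finset.mem_insert, Fin.ext_iff]

private theorem exuV_vec (P : Finset (Fin n)) (X : List (Fin n × Finset (Fin n))) (v : Fin n) :
    exuV n (vec P) (prv X) v = vec (P ∪ excU X v) := by
  unfold exuV
  apply map_range_vec
  intro j
  rw [Bool.or_eq_true, Bool.and_eq_true, Bool.not_eq_true', decide_eq_false_iff_not, mem_vec_fin,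
    Finset.mem_union, List.any_eq_true]
  unfold prv excU
  simp only [List.mem_map, Bool.and_eq_true, decide_eq_true_eq, Finset.mem_filter, Finset.mem_univ,
    true_and]
  constructor
  · rintro (h | ⟨h1, p, ⟨a, ha, rfl⟩, h2, h3⟩)
    · exact Or.inl h
    · exact Or.inr ⟨fun h => h1 (by rw [h]), a, ha, Fin.ext h2, (mem_vec_fin _ _).1 h3⟩
  · rintro (h | ⟨h1, a, ha, h2, h3⟩)
    · exact Or.inl h
    · exact Or.inr ⟨fun h => h1 (Fin.ext h), _, ⟨a, ha, rfl⟩, by rw [h2], (mem_vec_fin _ _).2 h3⟩

theorem stepV_vec (K : ℕ) (F : List (Finset (Fin n))) (C : Finset (Fin n))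
    (X : List (Fin n × Finset (Fin n))) (s : Finset (Fin n) × Finset (Fin n)) (v : Fin n) :
    stepV K n (F.map vec) (vec C) (prv X) (vec2 s) v = vec2 (step K F C X s v) := by
  unfold stepV step vec2
  simp only [mem_vec_bool, freqV_vec, excV_prv, insV_vec, exuV_vec, Finset.mem_union]
  by_cases h1 : v ∈ s.1
  · simp [h1]
  · by_cases h2 : v ∈ s.2
    · simp [h2]
    · by_cases h3 : Freq K F s.1 v
      · by_cases h4 : v ∈ C
        · simp [h1, h2, h3, h4]
        · simp [h1, h2, h3, h4]
      · by_cases h5 : Exc X v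
        · simp [h1, h2, h3, h5]
        · simp [h1, h2, h3, h5]

theorem simV_vec (K : ℕ) (F : List (Finset (Fin n))) (C : Finset (Fin n))
    (X : List (Fin n × Finset (Fin n))) (s : Finset (Fin n) × Finset (Fin n)) (i : ℕ) (hi : i ≤ n) :
    simV K n (F.map vec) (vec C) (prv X) (vec2 s) i = vec2 (sim K F C X s i) := by
  induction i with
  | zero => rfl
  | succ i ih =>
    have h : i < n := hi
    have h1 : simV K n (F.map vec) (vec C) (prv X) (vec2 s) (i + 1) =
        stepV K n (F.map vec) (vec C) (prv X)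
          (simV K n (F.map vec) (vec C) (prv X) (vec2 s) i) i := rfl
    rw [h1, ih (le_of_lt h), sim, dif_pos h]
    exact stepV_vec K F C X (sim K F C X s i) ⟨i, h⟩

theorem cov1V_vec (As : List (Finset (Fin n))) (i : ℕ) (b : Bool) :
    cov1V n (lsv As) i b = vec (cov1 As i b) := by
  unfold cov1V
  apply map_range_vec
  intro j
  unfold cov1 lsv
  rw [Finset.mem_filter]
  by_cases h : (j : ℕ) + 1 = i
  · simp [h]
  · simp only [h, decide_false, cond_false, List.any_eq_true, List.mem_map, if_false,
      Finset.mem_univ, true_and]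
    constructor
    · rintro ⟨p, ⟨A, hA, rfl⟩, h2⟩
      exact ⟨A, hA, (mem_vec_fin _ _).1 h2⟩
    · rintro ⟨A, hA, h2⟩
      exact ⟨_, ⟨A, hA, rfl⟩, (mem_vec_fin _ _).2 h2⟩

theorem cov2V_vec (Bs : List (Finset (Fin n))) : cov2V n (lsv Bs) = vec (cov2 Bs) := by
  unfold cov2V
  apply map_range_vec
  intro j
  unfold cov2 lsv
  rw [Finset.mem_filter]
  simp only [List.any_eq_true, List.mem_map, Finset.mem_univ, true_and]
  constructor
  · rintro ⟨p, ⟨A, hA, rfl⟩, h2⟩
    exact ⟨A, hA, (mem_vec_fin _ _).1 h2⟩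
  · rintro ⟨A, hA, h2⟩
    exact ⟨_, ⟨A, hA, rfl⟩, (mem_vec_fin _ _).2 h2⟩

theorem zeroV_vec : zeroV n = vec (∅ : Finset (Fin n)) := by
  unfold zeroV
  apply map_range_vec
  intro j
  simp

theorem decV_vec (K : ℕ) (E L : List (Finset (Fin n))) (As Bs : List (Finset (Fin n)))
    (X Y : List (Fin n × Finset (Fin n))) (i : ℕ) (hi : i ≤ n) (b : Bool) :
    decV K n (E.map vec) (L.map vec) (lsv As) (lsv Bs) (prv X) (prv Y) i b =
      vec (dec K E L As Bs X Y i b) := by
  unfold decV dec
  rw [cov1V_vec, cov2V_vec, zeroV_vec]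
  have h1 : simV K n (L.map vec) (vec (cov1 As i b)) (prv X)
      (vec (∅ : Finset (Fin n)), vec (∅ : Finset (Fin n))) i =
      vec2 (sim K L (cov1 As i b) X (∅, ∅) i) := simV_vec K L (cov1 As i b) X (∅, ∅) i hi
  have h2 : ∀ s : Finset (Fin n) × Finset (Fin n), (vec2 s).swap = vec2 s.swap := fun _ => rfl
  rw [h1, h2, simV_vec K E (cov2 Bs) Y _ n le_rfl]
  rfl

end Pool.Agent.Helper64.SQ
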