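import Mathlib
import Pool.Agent.Helper81.VCP.Defs
import Pool.Agent.Helper81.VCP.K3
import Pool.Agent.Helper81.VCP.K4
import Pool.Agent.Helper81.VCP.K7
import Pool.Agent.Helper64.SQ.Core
import Pool.Agent.Helper64.SQ.Complete
import Pool.Agent.Helper64.SQ.VDefs
import Pool.Agent.Helper64.SQ.Dict

/-!
# SQ-Search: correctness and feasibility of the search

* `nextS_some`, `nextS_none` as `nextY_some`, `nextY_none` of `Helper33/TCM/Search.lean`.
* `nextS_none`: `complete K _ E L` with `m = mS`, `k = kS`, `e = eS` (`lgK_spec`), `Wit E L T` for a minimal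
  transversal `T` of `E` which is not in `L`; the lists are in `prs` by `mem_prs` (for `lsv` one needs
  `0 < n` if the list is nonempty; if `n = 0` the only candidate set is `∅`: `E` and `L` have only the member `∅`;
  then `Wit E L T` gives `E = []` (no member of `E` meets `T = ∅`) and `L = []`, and `dec .. [] [] [] [] 0 false = ∅`
  is a candidate).
-/

set_option autoImplicit false

namespace Pool.Agent.Helper64.SQ

open Pool.Agent.Helper36 Pool.Agent.Helper81.VCP

variable {n : ℕ}

private theorem recN_div (K c q : ℕ) : PT.recN c (fun _ x => x / K) q = c / K ^ q := by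
  induction q with
  | zero => simp [PT.recN]
  | succ q ih =>
    have : PT.recN c (fun _ x => x / K) (q + 1) = PT.recN c (fun _ x => x / K) q / K := rfl
    rw [this, ih, Nat.div_div_eq_div_mul, pow_succ]

private theorem lgK_ex (K c : ℕ) (hK : 2 ≤ K) :
    ∃ i, i < c + 1 ∧ PT.recN c (fun _ x => x / K) i = 0 := by
  refine ⟨c, Nat.lt_succ_self c, ?_⟩
  rw [recN_div]
  exact Nat.div_eq_of_lt (lt_of_lt_of_le Nat.lt_two_pow_self (Nat.pow_le_pow_left hK c))

open Classical in
private theorem mu_spec (m : ℕ) (Q : ℕ → Prop) (hex : ∃ i, i < m ∧ Q i) :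
    PT.mu m Q < m ∧ Q (PT.mu m Q) ∧ ∀ i, i < m → Q i → PT.mu m Q ≤ i := by
  unfold PT.mu
  rw [dif_pos hex]
  exact ⟨(Nat.find_spec hex).1, (Nat.find_spec hex).2, fun i h1 h2 => Nat.find_min' hex ⟨h1, h2⟩⟩

theorem lgK_spec (K c : ℕ) (hK : 2 ≤ K) : c < K ^ lgK K c := by
  have h := (mu_spec (c + 1) _ (lgK_ex K c hK)).2.1
  rw [recN_div, Nat.div_eq_zero_iff] at h
  rcases h with h | h
  · exact absurd h (pow_ne_zero _ (by omega))
  · exact h

theorem lgK_le (K c q : ℕ) (hK : 2 ≤ K) (h : c < K ^ q) : lgK K c ≤ q := by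
  obtain ⟨h1, -, h2⟩ := mu_spec (c + 1) _ (lgK_ex K c hK)
  by_cases hq : q < c + 1
  · refine h2 q hq ?_
    rw [recN_div]
    exact Nat.div_eq_of_lt h
  · exact le_of_lt (lt_of_lt_of_le h1 (not_lt.1 hq))

private theorem length_stepV (K : ℕ) (F : List (List Bool)) (C : List Bool)
    (X : List (ℕ × List Bool)) (s : List Bool × List Bool) (v : ℕ)
    (h : s.1.length = n ∧ s.2.length = n) :
    (stepV K n F C X s v).1.length = n ∧ (stepV K n F C X s v).2.length = n := by
  unfold stepV
  cases mem s.1 v || mem s.2 v <;> cases freqV K n F s.1 v <;> cases mem C v <;>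
    cases excV X v <;> simp [insV, exuV, h]

private theorem length_simV (K : ℕ) (F : List (List Bool)) (C : List Bool)
    (X : List (ℕ × List Bool)) (s : List Bool × List Bool) (i : ℕ)
    (h : s.1.length = n ∧ s.2.length = n) :
    (simV K n F C X s i).1.length = n ∧ (simV K n F C X s i).2.length = n := by
  induction i with
  | zero => exact h
  | succ i ih => exact length_stepV K F C X _ i ih

private theorem length_decV (K : ℕ) (E L : List (List Bool)) (As Bs X Y : List (ℕ × List Bool))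
    (i : ℕ) (b : Bool) : (decV K n E L As Bs X Y i b).length = n := by
  unfold decV
  refine (length_simV K E (cov2V n Bs) Y _ n ?_).1
  have h := length_simV (n := n) K L (cov1V n As i b) X (zeroV n, zeroV n) i
    ⟨by simp [zeroV], by simp [zeroV]⟩
  exact ⟨h.2, h.1⟩

private theorem length_of_mem_allS (K : ℕ) (E L : List (List Bool))
    (WA WB WX WY : List (List (ℕ × List Bool))) (Z : List Bool)
    (h : Z ∈ allS K n E L WA WB WX WY) : Z.length = n := by
  unfold allS at h
  rw [List.mem_flatMap] at h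
  obtain ⟨i, _, h⟩ := h
  rw [List.mem_flatMap] at h
  obtain ⟨b, _, h⟩ := h
  rw [List.mem_flatMap] at h
  obtain ⟨As, _, h⟩ := h
  rw [List.mem_flatMap] at h
  obtain ⟨X, _, h⟩ := h
  rw [List.mem_flatMap] at h
  obtain ⟨Bs, _, h⟩ := h
  rw [List.mem_map] at h
  obtain ⟨Y, _, rfl⟩ := h
  exact length_decV K E L As Bs X Y i b

theorem nextS_some (P : ℕ) (E L : List (Finset (Fin n))) (K : ℕ) (v : List Bool)
    (h : nextS P n (E.map vec) (L.map vec) K = some v) :
    ∃ T : Finset (Fin n), v = vec T ∧ MinTr E T ∧ ∀ B ∈ L, ¬ B ⊆ T := by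
  unfold nextS at h
  obtain ⟨Z, hfind, hv⟩ := Option.map_eq_some_iff.1 h
  have hgood := List.find?_some hfind
  obtain ⟨Z', rfl⟩ := vec_surj Z
    (length_of_mem_allS K _ _ _ _ _ _ Z (List.mem_of_find?_eq_some hfind))
  unfold good at hgood
  rw [Bool.and_eq_true] at hgood
  obtain ⟨T, h1, h2, h3⟩ := minim_spec E Z' ((hits_vec E Z').1 hgood.1)
  refine ⟨T, by rw [← hv, h1], h2, fun B hB hBT => ?_⟩
  exact (avoids_vec L Z').1 hgood.2 B hB (hBT.trans h3)

private theorem lsv_mem_prs (P q : ℕ) (E : List (Finset (Fin n))) (As : List (Finset (Fin n)))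
    (hn : 0 < n) (hS : ∀ A ∈ As, A ∈ E) (hc : As.length ≤ q)
    (h : (prs P n (E.map vec) q).length ≤ P) : lsv As ∈ prs P n (E.map vec) q := by
  rw [mem_prs P n (E.map vec) q h]
  unfold lsv
  refine ⟨by rw [List.length_map]; exact hc, ?_⟩
  intro p hp
  rw [List.mem_map] at hp
  obtain ⟨B, hB, rfl⟩ := hp
  exact ⟨hn, List.mem_map.2 ⟨B, hS B hB, rfl⟩⟩

private theorem prv_mem_prs (P q : ℕ) (E : List (Finset (Fin n)))
    (X : List (Fin n × Finset (Fin n))) (hS : ∀ p ∈ X, p.2 ∈ E) (hc : X.length ≤ q)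
    (h : (prs P n (E.map vec) q).length ≤ P) : prv X ∈ prs P n (E.map vec) q := by
  rw [mem_prs P n (E.map vec) q h]
  unfold prv
  refine ⟨by rw [List.length_map]; exact hc, ?_⟩
  intro p hp
  rw [List.mem_map] at hp
  obtain ⟨a, ha, rfl⟩ := hp
  exact ⟨a.1.2, List.mem_map.2 ⟨a.2, hS a ha, rfl⟩⟩

theorem nextS_none (P : ℕ) (E L : List (Finset (Fin n))) (K : ℕ) (hL : ∀ B ∈ L, MinTr E B)
    (hf : feasS P n (E.map vec) (L.map vec) K = true)
    (h : nextS P n (E.map vec) (L.map vec) K = none) :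
    ∀ T : Finset (Fin n), MinTr E T → T ∈ L := by
  unfold feasS at hf
  rw [Bool.and_eq_true, Bool.and_eq_true, Bool.and_eq_true, Bool.and_eq_true, decide_eq_true_eq,
    decide_eq_true_eq, decide_eq_true_eq, decide_eq_true_eq, decide_eq_true_eq] at hf
  obtain ⟨⟨hK, hf1⟩, ⟨hf2, hf3⟩, hf4⟩ := hf
  unfold nextS at h
  rw [Option.map_eq_none_iff, List.find?_eq_none] at h
  have hgd : ∀ (As Bs : List (Finset (Fin n))) (X Y : List (Fin n × Finset (Fin n))) (i : ℕ)
      (b : Bool), lsv As ∈ prs P n (E.map vec) (kS K (E.map vec) (L.map vec)) →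
      lsv Bs ∈ prs P n (L.map vec) (kS K (E.map vec) (L.map vec)) →
      prv X ∈ prs P n (E.map vec) (eS K (E.map vec) (L.map vec)) →
      prv Y ∈ prs P n (L.map vec) (eS K (E.map vec) (L.map vec)) → i ≤ n →
      ¬ Wit E L (dec K E L As Bs X Y i b) := by
    intro As Bs X Y i b hAs hBs hX hY hi hW
    apply h (vec (dec K E L As Bs X Y i b))
    · rw [← decV_vec K E L As Bs X Y i hi b]
      unfold allS
      rw [List.mem_flatMap]
      refine ⟨i, List.mem_range.2 (by omega), ?_⟩
      rw [List.mem_flatMap]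
      refine ⟨b, by cases b <;> simp, ?_⟩
      rw [List.mem_flatMap]
      refine ⟨lsv As, hAs, ?_⟩
      rw [List.mem_flatMap]
      refine ⟨prv X, hX, ?_⟩
      rw [List.mem_flatMap]
      refine ⟨lsv Bs, hBs, ?_⟩
      rw [List.mem_map]
      exact ⟨prv Y, hY, rfl⟩
    · unfold good
      rw [Bool.and_eq_true, hits_vec, avoids_vec]
      exact ⟨fun A hA => hW.1 A hA, fun B hB => hW.2 B hB⟩
  intro T hT
  by_contra hTL
  have hWT : Wit E L T := by
    constructor
    · intro A hA
      rw [Finset.inter_comm]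
      exact hT.prop A hA
    · intro B hB hBT
      have h1 : T ⊆ B := hT.le_of_le (hL B hB).prop hBT
      rw [Finset.Subset.antisymm h1 hBT] at hTL
      exact hTL hB
  rcases Nat.eq_zero_or_pos n with hn | hn
  · subst hn
    have hT0 : T = ∅ := Finset.eq_empty_of_isEmpty T
    refine hgd [] [] [] [] 0 false ?_ ?_ ?_ ?_ le_rfl ?_
    · exact (mem_prs P 0 _ _ hf1 _).2 ⟨Nat.zero_le _, by simp [lsv]⟩
    · exact (mem_prs P 0 _ _ hf2 _).2 ⟨Nat.zero_le _, by simp [lsv]⟩
    · exact (mem_prs P 0 _ _ hf3 _).2 ⟨Nat.zero_le _, by simp [prv]⟩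
    · exact (mem_prs P 0 _ _ hf4 _).2 ⟨Nat.zero_le _, by simp [prv]⟩
    · have : dec K E L [] [] [] [] 0 false = T := by
        rw [hT0]
        exact Finset.eq_empty_of_isEmpty _
      rw [this]
      exact hWT
  · have hm := lgK_spec 2 ((E.map vec).length + (L.map vec).length) le_rfl
    have hk := lgK_spec 2 (K * mS (E.map vec) (L.map vec)) le_rfl
    have he := lgK_spec K ((E.map vec).length + (L.map vec).length) hK
    rw [List.length_map, List.length_map] at hm he
    obtain ⟨As, Bs, X, Y, i, b, hAs, hAl, hBs, hBl, hX, hXl, hY, hYl, hi, hW⟩ :=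
      complete K hK E L (fun A hA B hB => by
        rw [Finset.inter_comm]
        exact (hL B hB).prop A hA) (mS (E.map vec) (L.map vec)) (kS K (E.map vec) (L.map vec))
        (eS K (E.map vec) (L.map vec))
        (by unfold mS; rw [List.length_map, List.length_map]; omega)
        (by unfold mS; rw [List.length_map, List.length_map]; omega) hk
        (by unfold eS; rw [List.length_map, List.length_map]; omega)
        (by unfold eS; rw [List.length_map, List.length_map]; omega) ⟨T, hWT⟩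
    exact hgd As Bs X Y i b (lsv_mem_prs P _ E As hn hAs hAl hf1)
      (lsv_mem_prs P _ L Bs hn hBs hBl hf2) (prv_mem_prs P _ E X hX hXl hf3)
      (prv_mem_prs P _ L Y hY hYl hf4) hi hW

/-- With `b ≥ n (|E| + |L|) + n + 2` and a budget of `b ^ (8 sqrt (log b) + 8)` the search is feasible for
some `K`. (`s = Nat.sqrt (Nat.log 2 b)`, `K = 2 ^ (s + 1)`; `m ≤ log b + 1 ≤ (s + 1)^2`;
`K m < 2 ^ (s + 1 + 2 (s + 1))`, so `k ≤ 3 s + 3`; `|E| + |L| < 2 ^ m ≤ K ^ (s + 1)`, so `e ≤ s + 1`;
`(prs P n E q).length ≤ (n |E| + 1)^q ≤ b ^ q` by `length_prs_le`; if `n = 0` the lists `prs` have at most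
one element, `K = 2`.) -/
theorem feasS_of_card (P b : ℕ) (E L : List (Finset (Fin n)))
    (hb : n * (E.length + L.length) + n + 2 ≤ b)
    (hP : b ^ (8 * Nat.sqrt (Nat.log 2 b) + 8) ≤ P) :
    ∃ K < P, feasS P n (E.map vec) (L.map vec) K = true := by
  set s := Nat.sqrt (Nat.log 2 b) with hs
  have hb2 : 2 ≤ b := by omega
  have hpow : ∀ q, q ≤ 3 * (s + 1) → ∀ H : List (Finset (Fin n)), n * H.length + 1 ≤ b →
      (prs P n (H.map vec) q).length ≤ P := by
    intro q hq H hH
    refine (length_prs_le P n (H.map vec) q).trans ?_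
    rw [List.length_map]
    refine (Nat.pow_le_pow_left hH q).trans ?_
    refine (Nat.pow_le_pow_right (by omega) ?_).trans hP
    omega
  rcases Nat.eq_zero_or_pos n with hn | hn
  · subst hn
    have hP1 : 2 < P := by
      refine lt_of_lt_of_le ?_ hP
      calc 2 < 2 ^ 8 := by norm_num
        _ ≤ b ^ 8 := Nat.pow_le_pow_left hb2 8
        _ ≤ b ^ (8 * s + 8) := Nat.pow_le_pow_right (by omega) (by omega)
    have h1 : ∀ (q : ℕ) (H : List (Finset (Fin 0))), (prs P 0 (H.map vec) q).length ≤ P := by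
      intro q H
      refine (length_prs_le P 0 (H.map vec) q).trans ?_
      rw [Nat.zero_mul, Nat.zero_add, one_pow]
      omega
    refine ⟨2, hP1, ?_⟩
    unfold feasS
    rw [Bool.and_eq_true, Bool.and_eq_true, Bool.and_eq_true, Bool.and_eq_true, decide_eq_true_eq,
      decide_eq_true_eq, decide_eq_true_eq, decide_eq_true_eq, decide_eq_true_eq]
    exact ⟨⟨le_rfl, h1 _ E⟩, ⟨h1 _ L, h1 _ E⟩, h1 _ L⟩
  · have hEL : E.length + L.length < b := by
      have : E.length + L.length ≤ n * (E.length + L.length) := Nat.le_mul_of_pos_left _ hn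
      omega
    have hE : n * E.length + 1 ≤ b := by
      have : n * E.length ≤ n * (E.length + L.length) := Nat.mul_le_mul_left _ (by omega)
      omega
    have hLb : n * L.length + 1 ≤ b := by
      have : n * L.length ≤ n * (E.length + L.length) := Nat.mul_le_mul_left _ (by omega)
      omega
    have hlog : b < 2 ^ (Nat.log 2 b + 1) := Nat.lt_pow_succ_log_self (by norm_num) b
    have hls : Nat.log 2 b + 1 ≤ (s + 1) * (s + 1) := by
      have := Nat.lt_succ_sqrt (Nat.log 2 b)
      rw [← hs] at this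
      exact this
    have hK2 : 2 ≤ 2 ^ (s + 1) := by
      calc 2 = 2 ^ 1 := rfl
        _ ≤ 2 ^ (s + 1) := Nat.pow_le_pow_right (by norm_num) (by omega)
    have hm : mS (E.map vec) (L.map vec) ≤ Nat.log 2 b + 1 := by
      unfold mS
      apply lgK_le 2 _ _ le_rfl
      rw [List.length_map, List.length_map]
      omega
    have hk : kS (2 ^ (s + 1)) (E.map vec) (L.map vec) ≤ 3 * (s + 1) := by
      unfold kS
      apply lgK_le 2 _ _ le_rfl
      have h1 : s + 1 < 2 ^ (s + 1) := Nat.lt_two_pow_self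
      calc 2 ^ (s + 1) * mS (E.map vec) (L.map vec) ≤ 2 ^ (s + 1) * ((s + 1) * (s + 1)) :=
            Nat.mul_le_mul_left _ (hm.trans hls)
        _ < 2 ^ (s + 1) * (2 ^ (s + 1) * 2 ^ (s + 1)) := by
            apply Nat.mul_lt_mul_of_pos_left
            · exact Nat.mul_lt_mul'' h1 h1
            · positivity
        _ = 2 ^ (3 * (s + 1)) := by
            rw [← pow_add, ← pow_add]
            congr 1
            ring
    have he : eS (2 ^ (s + 1)) (E.map vec) (L.map vec) ≤ 3 * (s + 1) := by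
      unfold eS
      refine (lgK_le (2 ^ (s + 1)) _ (s + 1) hK2 ?_).trans (by omega)
      rw [List.length_map, List.length_map, ← pow_mul]
      calc E.length + L.length < b := hEL
        _ ≤ 2 ^ (Nat.log 2 b + 1) := hlog.le
        _ ≤ 2 ^ ((s + 1) * (s + 1)) := Nat.pow_le_pow_right (by norm_num) hls
    refine ⟨2 ^ (s + 1), ?_, ?_⟩
    · refine lt_of_lt_of_le ?_ hP
      calc 2 ^ (s + 1) ≤ b ^ (s + 1) := Nat.pow_le_pow_left hb2 _
        _ < b ^ (8 * s + 8) := Nat.pow_lt_pow_right (by omega) (by omega)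
    · unfold feasS
      rw [Bool.and_eq_true, Bool.and_eq_true, Bool.and_eq_true, Bool.and_eq_true,
        decide_eq_true_eq, decide_eq_true_eq, decide_eq_true_eq, decide_eq_true_eq,
        decide_eq_true_eq]
      exact ⟨⟨hK2, hpow _ hk E hE⟩, ⟨hpow _ hk L hLb, hpow _ he E hE⟩, hpow _ he L hLb⟩

end Pool.Agent.Helper64.SQ
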