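import Mathlib
import Pool.Agent.Helper68.PT.Ext2
import Pool.Agent.Helper81.VCP.PT1a
import Pool.Agent.Helper81.VCP.PT1b
import Pool.Agent.Helper81.VCP.PT2a
import Pool.Agent.Helper81.VCP.PT2b
import Pool.Agent.Helper81.VCP.PT3
import Pool.Agent.Helper64.SQ.VDefs

/-!
# SQ-VPT: polynomial time of the search

Everything by `unfold` and `fun_prop` (give a `_pt` lemma with the attribute `fun_prop` for every
definition of `VDefs.lean`, as in `Helper33/TCM/PT.lean`), except
* `simV`, `lgK`: `PolyTime.recN` with a `Bdd` bound: the components of the state of `simV` are the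
  initial vectors or have length `n` (`insV`, `exuV` have length `n`, entries are Booleans), so
  `esz ≤ esz s + 9 n`; the numbers in `lgK` are at most `c`.
-/

set_option autoImplicit false

namespace Pool.Agent.Helper64.SQ

open Pool.Agent.Helper36 Pool.Agent.Helper36.PT Pool.Agent.Helper81.VCP

variable {α : Type} [Enc α]

@[fun_prop]
theorem disjV_pt {n : α → ℕ} {B P : α → List Bool} (hn : PolyTime n) (hB : PolyTime B)
    (hP : PolyTime P) : PolyTime (fun a => disjV (n a) (B a) (P a)) := by
  unfold disjV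
  fun_prop

@[fun_prop]
theorem restcV_pt {n : α → ℕ} {F : α → List (List Bool)} {P : α → List Bool} (hn : PolyTime n)
    (hF : PolyTime F) (hP : PolyTime P) : PolyTime (fun a => restcV (n a) (F a) (P a)) := by
  unfold restcV
  fun_prop

@[fun_prop]
theorem cntcV_pt {n v : α → ℕ} {F : α → List (List Bool)} {P : α → List Bool} (hn : PolyTime n)
    (hF : PolyTime F) (hP : PolyTime P) (hv : PolyTime v) :
    PolyTime (fun a => cntcV (n a) (F a) (P a) (v a)) := by
  unfold cntcV
  fun_prop

@[fun_prop]
theorem freqV_pt {K n v : α → ℕ} {F : α → List (List Bool)} {P : α → List Bool} (hK : PolyTime K)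
    (hn : PolyTime n) (hF : PolyTime F) (hP : PolyTime P) (hv : PolyTime v) :
    PolyTime (fun a => freqV (K a) (n a) (F a) (P a) (v a)) := by
  unfold freqV
  fun_prop

@[fun_prop]
theorem excV_pt {X : α → List (ℕ × List Bool)} {v : α → ℕ} (hX : PolyTime X) (hv : PolyTime v) :
    PolyTime (fun a => excV (X a) (v a)) := by
  unfold excV
  fun_prop

@[fun_prop]
theorem insV_pt {n v : α → ℕ} {P : α → List Bool} (hn : PolyTime n) (hP : PolyTime P)
    (hv : PolyTime v) : PolyTime (fun a => insV (n a) (P a) (v a)) := by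
  unfold insV
  fun_prop

@[fun_prop]
theorem exuV_pt {n v : α → ℕ} {P : α → List Bool} {X : α → List (ℕ × List Bool)} (hn : PolyTime n)
    (hP : PolyTime P) (hX : PolyTime X) (hv : PolyTime v) :
    PolyTime (fun a => exuV (n a) (P a) (X a) (v a)) := by
  unfold exuV
  fun_prop

@[fun_prop]
theorem stepV_pt {K n v : α → ℕ} {F : α → List (List Bool)} {C : α → List Bool}
    {X : α → List (ℕ × List Bool)} {s : α → List Bool × List Bool} (hK : PolyTime K)
    (hn : PolyTime n) (hF : PolyTime F) (hC : PolyTime C) (hX : PolyTime X) (hs : PolyTime s)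
    (hv : PolyTime v) : PolyTime (fun a => stepV (K a) (n a) (F a) (C a) (X a) (s a) (v a)) := by
  unfold stepV
  fun_prop

theorem esz_boolList (l : List Bool) : esz l ≤ l.length * (2 * 1 + 1) := by
  apply esz_list_le
  intro b _
  exact le_of_eq (esz_bool b)

theorem esz_insV (n : ℕ) (P : List Bool) (v : ℕ) : esz (insV n P v) ≤ 3 * n := by
  have h := esz_boolList (insV n P v)
  have h1 : (insV n P v).length = n := by simp [insV]
  rw [h1] at h
  omega

theorem esz_exuV (n : ℕ) (P : List Bool) (X : List (ℕ × List Bool)) (v : ℕ) :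
    esz (exuV n P X v) ≤ 3 * n := by
  have h := esz_boolList (exuV n P X v)
  have h1 : (exuV n P X v).length = n := by simp [exuV]
  rw [h1] at h
  omega

theorem esz_stepV (K n : ℕ) (F : List (List Bool)) (C : List Bool) (X : List (ℕ × List Bool))
    (s : List Bool × List Bool) (v a b : ℕ) (h1 : esz s.1 ≤ a + 3 * n) (h2 : esz s.2 ≤ b + 3 * n) :
    esz (stepV K n F C X s v).1 ≤ a + 3 * n ∧ esz (stepV K n F C X s v).2 ≤ b + 3 * n := by
  have e1 := esz_insV n s.1 v
  have e2 := esz_insV n s.2 v
  have e3 := esz_exuV n s.1 X v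
  unfold stepV
  cases (mem s.1 v || mem s.2 v) <;> cases freqV K n F s.1 v <;> cases mem C v <;>
    cases excV X v <;> simp only [cond_true, cond_false] <;> constructor <;> omega

theorem esz_simV (K n : ℕ) (F : List (List Bool)) (C : List Bool) (X : List (ℕ × List Bool))
    (s : List Bool × List Bool) (i : ℕ) :
    esz (simV K n F C X s i).1 ≤ esz s.1 + 3 * n ∧ esz (simV K n F C X s i).2 ≤ esz s.2 + 3 * n := by
  induction i with
  | zero => exact ⟨Nat.le_add_right _ _, Nat.le_add_right _ _⟩
  | succ i ih => exact esz_stepV K n F C X (simV K n F C X s i) i _ _ ih.1 ih.2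

@[fun_prop]
theorem simV_pt {K n i : α → ℕ} {F : α → List (List Bool)} {C : α → List Bool}
    {X : α → List (ℕ × List Bool)} {s : α → List Bool × List Bool} (hK : PolyTime K)
    (hn : PolyTime n) (hF : PolyTime F) (hC : PolyTime C) (hX : PolyTime X) (hs : PolyTime s)
    (hi : PolyTime i) : PolyTime (fun a => simV (K a) (n a) (F a) (C a) (X a) (s a) (i a)) := by
  have hh : PolyTime (fun p : (α × ℕ) × (List Bool × List Bool) =>
      stepV (K p.1.1) (n p.1.1) (F p.1.1) (C p.1.1) (X p.1.1) p.2 p.1.2) := by fun_prop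
  have hs1 : PolyTime (fun a => esz (s a)) := by fun_prop
  exact PolyTime.recN (n := i) (g := s)
    (h := fun a v t => stepV (K a) (n a) (F a) (C a) (X a) t v) hi hs hh
    ⟨fun a => esz (s a) + 9 * n a, (bdd_nat hs1).add ((Bdd.const 9).mul (bdd_nat hn)), by
        intro a j _
        obtain ⟨h1, h2⟩ := esz_simV (K a) (n a) (F a) (C a) (X a) (s a) j
        have h3 := esz_pair (simV (K a) (n a) (F a) (C a) (X a) (s a) j).1
          (simV (K a) (n a) (F a) (C a) (X a) (s a) j).2
        have h4 := esz_pair (s a).1 (s a).2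
        change esz (simV (K a) (n a) (F a) (C a) (X a) (s a) j) ≤ esz (s a) + 9 * n a
        have h5 : esz (simV (K a) (n a) (F a) (C a) (X a) (s a) j) = _ := h3
        have h6 : esz (s a) = _ := h4
        omega⟩

@[fun_prop]
theorem cov1V_pt {n i : α → ℕ} {As : α → List (ℕ × List Bool)} {b : α → Bool} (hn : PolyTime n)
    (hA : PolyTime As) (hi : PolyTime i) (hb : PolyTime b) :
    PolyTime (fun a => cov1V (n a) (As a) (i a) (b a)) := by
  unfold cov1V
  fun_prop

@[fun_prop]
theorem cov2V_pt {n : α → ℕ} {Bs : α → List (ℕ × List Bool)} (hn : PolyTime n)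
    (hB : PolyTime Bs) : PolyTime (fun a => cov2V (n a) (Bs a)) := by
  unfold cov2V
  fun_prop

@[fun_prop]
theorem zeroV_pt {n : α → ℕ} (hn : PolyTime n) : PolyTime (fun a => zeroV (n a)) := by
  unfold zeroV
  fun_prop

@[fun_prop]
theorem swap_pt {f : α → List Bool × List Bool} (hf : PolyTime f) :
    PolyTime (fun a => (f a).swap) := by
  have h : PolyTime (fun a => ((f a).2, (f a).1)) := by fun_prop
  exact h

@[fun_prop]
theorem decV_pt {K n i : α → ℕ} {E L : α → List (List Bool)} {As Bs X Y : α → List (ℕ × List Bool)}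
    {b : α → Bool} (hK : PolyTime K) (hn : PolyTime n) (hE : PolyTime E) (hL : PolyTime L)
    (hA : PolyTime As) (hB : PolyTime Bs) (hX : PolyTime X) (hY : PolyTime Y) (hi : PolyTime i)
    (hb : PolyTime b) :
    PolyTime (fun a => decV (K a) (n a) (E a) (L a) (As a) (Bs a) (X a) (Y a) (i a) (b a)) := by
  unfold decV
  fun_prop

theorem recN_div_le (K c q : ℕ) : PT.recN c (fun _ x => x / K) q ≤ c := by
  induction q with
  | zero => exact le_rfl
  | succ q ih => exact (Nat.div_le_self _ _).trans ih

@[fun_prop]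
theorem recN_div_pt {K c q : α → ℕ} (hK : PolyTime K) (hc : PolyTime c) (hq : PolyTime q) :
    PolyTime (fun a => PT.recN (c a) (fun _ x => x / K a) (q a)) := by
  have hh : PolyTime (fun p : (α × ℕ) × ℕ => p.2 / K p.1.1) := by fun_prop
  exact PolyTime.recN (n := q) (g := c) (h := fun a _ x => x / K a) hq hc hh
    ⟨c, bdd_nat hc, by
        intro a i _
        rw [esz_nat]
        exact recN_div_le (K a) (c a) i⟩

@[fun_prop]
theorem lgK_pt {K c : α → ℕ} (hK : PolyTime K) (hc : PolyTime c) :
    PolyTime (fun a => lgK (K a) (c a)) := by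
  have h1 : PolyTime (fun p : α × ℕ => PT.recN (c p.1) (fun _ x => x / K p.1) p.2 = 0) :=
    PolyTime.pEq (recN_div_pt (K := fun p : α × ℕ => K p.1) (c := fun p : α × ℕ => c p.1)
      (q := fun p : α × ℕ => p.2) (by fun_prop) (by fun_prop) (by fun_prop)) (PolyTime.const 0)
  exact PolyTime.mu' (n := fun a => c a + 1)
    (Q := fun a q => PT.recN (c a) (fun _ x => x / K a) q = 0) (by fun_prop) h1

@[fun_prop]
theorem mS_pt {E L : α → List (List Bool)} (hE : PolyTime E) (hL : PolyTime L) :
    PolyTime (fun a => mS (E a) (L a)) := by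
  unfold mS
  fun_prop

@[fun_prop]
theorem kS_pt {K : α → ℕ} {E L : α → List (List Bool)} (hK : PolyTime K) (hE : PolyTime E)
    (hL : PolyTime L) : PolyTime (fun a => kS (K a) (E a) (L a)) := by
  unfold kS
  fun_prop

@[fun_prop]
theorem eS_pt {K : α → ℕ} {E L : α → List (List Bool)} (hK : PolyTime K) (hE : PolyTime E)
    (hL : PolyTime L) : PolyTime (fun a => eS (K a) (E a) (L a)) := by
  unfold eS
  fun_prop

@[fun_prop]
theorem allS_pt {K n : α → ℕ} {E L : α → List (List Bool)}
    {WA WB WX WY : α → List (List (ℕ × List Bool))} (hK : PolyTime K) (hn : PolyTime n)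
    (hE : PolyTime E) (hL : PolyTime L) (hWA : PolyTime WA) (hWB : PolyTime WB)
    (hWX : PolyTime WX) (hWY : PolyTime WY) :
    PolyTime (fun a => allS (K a) (n a) (E a) (L a) (WA a) (WB a) (WX a) (WY a)) := by
  unfold allS
  fun_prop

@[fun_prop]
theorem nextS_pt' {P n K : α → ℕ} {E L : α → List (List Bool)} (hP : PolyTime P)
    (hn : PolyTime n) (hE : PolyTime E) (hL : PolyTime L) (hK : PolyTime K) :
    PolyTime (fun a => nextS (P a) (n a) (E a) (L a) (K a)) := by
  unfold nextS
  fun_prop

@[fun_prop]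
theorem feasS_pt' {P n K : α → ℕ} {E L : α → List (List Bool)} (hP : PolyTime P)
    (hn : PolyTime n) (hE : PolyTime E) (hL : PolyTime L) (hK : PolyTime K) :
    PolyTime (fun a => feasS (P a) (n a) (E a) (L a) (K a)) := by
  unfold feasS
  fun_prop

theorem feasS_pt : PolyTime (fun p : State × ℕ => feasS p.1.2.2.1 p.1.1.1 p.1.1.2 p.1.2.1 p.2) := by
  fun_prop

theorem nextS_pt : PolyTime (fun p : State × ℕ => nextS p.1.2.2.1 p.1.1.1 p.1.1.2 p.1.2.1 p.2) := by
  fun_prop

end Pool.Agent.Helper64.SQ
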